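import Pool.Agent.H65.CP.KeyA

/-!
# Classification of the permutations blocked by three permutations
-/

namespace H65.CP

open Finset

abbrev P6 := Equiv.Perm (Fin 6)

/-- `σ` is blocked by `g`: no permutation avoids `g 0, g 1, g 2, σ`. -/
def Blk (g : Fin 3 → P6) (σ : P6) : Prop :=
  ¬ ∃ τ : P6, (∀ i r, τ r ≠ g i r) ∧ ∀ r, τ r ≠ σ r

/-- row pattern -/
def RP (g : Fin 3 → P6) (σ : P6) (R C : Finset (Fin 6)) : Prop :=
  R.card = 3 ∧ C.card = 4 ∧ ∀ r ∈ R, ∀ c ∈ C, (∃ i, c = g i r) ∨ c = σ r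

/-- inverses -/
def ginv (g : Fin 3 → P6) : Fin 3 → P6 := fun i => (g i)⁻¹

theorem ginv_ginv (g : Fin 3 → P6) : ginv (ginv g) = g := by
  funext i; simp [ginv]

theorem inv_eq' (π : P6) (r c : Fin 6) : r = π⁻¹ c ↔ c = π r := by
  constructor
  · rintro rfl; exact (π.apply_symm_apply c).symm
  · rintro rfl; exact (π.symm_apply_apply r).symm

theorem Blk.pat {g : Fin 3 → P6} {σ : P6} (h : Blk g σ) :
    ∃ R C, RP g σ R C ∨ RP (ginv g) σ⁻¹ C R := by
  classical
  rcases hall_block (fun r c => (∀ i, c ≠ g i r) ∧ c ≠ σ r) with ⟨τ, hτ⟩ | ⟨R, C, hRC, hb⟩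
  · exact absurd ⟨τ, fun i r => (hτ r).1 i, fun r => (hτ r).2⟩ h
  · have hb' : ∀ r ∈ R, ∀ c ∈ C, (∃ i, c = g i r) ∨ c = σ r := by
      intro r hr c hc
      by_contra hcon
      push Not at hcon
      exact hb r hr c hc hcon
    have h1 : ∀ r ∈ R, C.card ≤ 4 := by
      intro r hr
      have h2 : C ⊆ insert (σ r) (univ.image fun i => g i r) := by
        intro c hc
        rcases hb' r hr c hc with ⟨i, hi⟩ | hi
        · exact mem_insert_of_mem (mem_image.2 ⟨i, mem_univ _, hi.symm⟩)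
        · rw [hi]; exact mem_insert_self _ _
      have h3 := card_le_card h2
      have h4 := card_insert_le (σ r) (univ.image fun i => g i r)
      have h5 := card_image_le (s := (univ : Finset (Fin 3))) (f := fun i => g i r)
      rw [card_univ, Fintype.card_fin] at h5
      omega
    have h2 : ∀ c ∈ C, R.card ≤ 4 := by
      intro c hc
      have h2 : R ⊆ insert (σ⁻¹ c) (univ.image fun i => (g i)⁻¹ c) := by
        intro r hr
        rcases hb' r hr c hc with ⟨i, hi⟩ | hi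
        · exact mem_insert_of_mem (mem_image.2 ⟨i, mem_univ _, ((inv_eq' _ _ _).2 hi).symm⟩)
        · rw [← (inv_eq' _ _ _).2 hi]; exact mem_insert_self _ _
      have h3 := card_le_card h2
      have h4 := card_insert_le (σ⁻¹ c) (univ.image fun i => (g i)⁻¹ c)
      have h5 := card_image_le (s := (univ : Finset (Fin 3))) (f := fun i => (g i)⁻¹ c)
      rw [card_univ, Fintype.card_fin] at h5
      omega
    have hR6 : R.card ≤ 6 := by
      have := card_le_univ R
      rwa [Fintype.card_fin] at this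
    have hC6 : C.card ≤ 6 := by
      have := card_le_univ C
      rwa [Fintype.card_fin] at this
    obtain ⟨r, hr⟩ : R.Nonempty := by rw [← card_pos]; omega
    obtain ⟨c, hc⟩ : C.Nonempty := by rw [← card_pos]; omega
    have h3 := h1 r hr
    have h4 := h2 c hc
    refine ⟨R, C, ?_⟩
    by_cases hC : C.card = 4
    · exact Or.inl ⟨by omega, hC, hb'⟩
    · refine Or.inr ⟨by omega, by omega, fun c hc r hr => ?_⟩
      rcases hb' r hr c hc with ⟨i, hi⟩ | hi
      · exact Or.inl ⟨i, (inv_eq' _ _ _).2 hi⟩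
      · exact Or.inr ((inv_eq' _ _ _).2 hi)

theorem Blk.inv {g : Fin 3 → P6} {σ : P6} (h : Blk g σ) : Blk (ginv g) σ⁻¹ := by
  rintro ⟨τ, h1, h2⟩
  refine h ⟨τ⁻¹, fun i r e => h1 i (g i r) ?_, fun r e => h2 (σ r) ?_⟩
  · rw [← e]
    show τ (τ.symm r) = (g i).symm _
    rw [Equiv.apply_symm_apply, Equiv.eq_symm_apply]
    exact e.symm
  · rw [← e]
    show τ (τ.symm r) = σ.symm _
    rw [Equiv.apply_symm_apply, Equiv.eq_symm_apply]
    exact e.symm

section

variable {g : Fin 3 → P6} {σ : P6} {R C : Finset (Fin 6)}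

theorem RP.spec (h : RP g σ R C) {r : Fin 6} (hr : r ∈ R) :
    (univ.image fun i => g i r) = C.erase (σ r) ∧ σ r ∈ C ∧
      (Function.Injective fun i => g i r) := by
  classical
  obtain ⟨h1, h2, h3⟩ := h
  have h4 : C ⊆ insert (σ r) (univ.image fun i => g i r) := by
    intro c hc
    rcases h3 r hr c hc with ⟨i, hi⟩ | hi
    · exact mem_insert_of_mem (mem_image.2 ⟨i, mem_univ _, hi.symm⟩)
    · rw [hi]; exact mem_insert_self _ _
  have h5 := card_image_le (s := (univ : Finset (Fin 3))) (f := fun i => g i r)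
  rw [card_univ, Fintype.card_fin] at h5
  have h6 := card_insert_le (σ r) (univ.image fun i => g i r)
  have h7 : C = insert (σ r) (univ.image fun i => g i r) :=
    eq_of_subset_of_card_le h4 (by omega)
  have h8 : σ r ∉ univ.image fun i => g i r := by
    intro h9
    rw [insert_eq_self.2 h9] at h7
    rw [h7] at h2
    omega
  have h9 : (univ.image fun i => g i r).card = 3 := by
    rw [h7, card_insert_of_notMem h8] at h2
    omega
  refine ⟨?_, ?_, ?_⟩
  · rw [h7, erase_insert h8]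
  · rw [h7]; exact mem_insert_self _ _
  · have h10 : (univ.image fun i => g i r).card = (univ : Finset (Fin 3)).card := by
      rw [h9, card_univ, Fintype.card_fin]
    have h11 := card_image_iff.1 h10
    rwa [coe_univ, Set.injOn_univ] at h11

theorem RP.mem (h : RP g σ R C) {r : Fin 6} (hr : r ∈ R) (i : Fin 3) : g i r ∈ C := by
  classical
  have h1 : g i r ∈ univ.image fun i => g i r := mem_image.2 ⟨i, mem_univ _, rfl⟩
  rw [(h.spec hr).1] at h1
  exact mem_of_mem_erase h1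

theorem RP.ne (h : RP g σ R C) {r : Fin 6} (hr : r ∈ R) (i : Fin 3) : g i r ≠ σ r := by
  classical
  have h1 : g i r ∈ univ.image fun i => g i r := mem_image.2 ⟨i, mem_univ _, rfl⟩
  rw [(h.spec hr).1] at h1
  exact (mem_erase.1 h1).1

/-- the number of `i` with `g i r ∈ T` -/
def NT' (g : Fin 3 → P6) (r : Fin 6) (T : Finset (Fin 6)) : ℕ :=
  (univ.filter fun i : Fin 3 => g i r ∈ T).card

theorem sumN (g : Fin 3 → P6) (T : Finset (Fin 6)) : ∑ r, NT' g r T = 3 * T.card := by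
  classical
  unfold NT'
  simp_rw [card_filter]
  rw [sum_comm]
  have h1 : ∀ i : Fin 3, (∑ r, if g i r ∈ T then 1 else 0) = T.card := by
    intro i
    rw [← card_filter]
    rw [← card_image_of_injective _ (g i).injective]
    congr 1
    ext c
    rw [mem_image]
    constructor
    · rintro ⟨r, hr, rfl⟩
      exact (mem_filter.1 hr).2
    · intro hc
      refine ⟨(g i).symm c, mem_filter.2 ⟨mem_univ _, ?_⟩, ?_⟩
      · rw [Equiv.apply_symm_apply]; exact hc
      · exact Equiv.apply_symm_apply _ _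
  rw [sum_congr rfl fun i _ => h1 i]
  simp

theorem RP.N (h : RP g σ R C) {r : Fin 6} (hr : r ∈ R) {T : Finset (Fin 6)} (hT : T ⊆ C) :
    NT' g r T = (T.erase (σ r)).card := by
  classical
  unfold NT'
  rw [← card_image_of_injective _ (h.spec hr).2.2]
  congr 1
  ext c
  rw [mem_image]
  constructor
  · rintro ⟨i, hi, rfl⟩
    exact mem_erase.2 ⟨h.ne hr i, (mem_filter.1 hi).2⟩
  · intro hc
    obtain ⟨h1, h2⟩ := mem_erase.1 hc
    have h3 : c ∈ C.erase (σ r) := mem_erase.2 ⟨h1, hT h2⟩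
    rw [← (h.spec hr).1] at h3
    obtain ⟨i, -, hi⟩ := mem_image.1 h3
    exact ⟨i, mem_filter.2 ⟨mem_univ _, hi ▸ h2⟩, hi⟩

theorem RP.sum (h : RP g σ R C) {T : Finset (Fin 6)} (hT : T ⊆ C) :
    ∑ r ∈ R, NT' g r T + (R.filter fun r => σ r ∈ T).card = 3 * T.card := by
  classical
  rw [card_filter, ← sum_add_distrib]
  have h1 : ∀ r ∈ R, NT' g r T + (if σ r ∈ T then 1 else 0) = T.card := by
    intro r hr
    rw [h.N hr hT]
    by_cases h2 : σ r ∈ T
    · rw [if_pos h2, card_erase_add_one h2]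
    · rw [if_neg h2, erase_eq_of_notMem h2, add_zero]
  rw [sum_congr rfl h1, sum_const, h.1, smul_eq_mul]

theorem RP.cnt (_h : RP g σ R C) (T : Finset (Fin 6)) :
    (R.filter fun r => σ r ∈ T).card ≤ T.card := by
  classical
  rw [← card_image_of_injective _ σ.injective]
  refine card_le_card fun c hc => ?_
  obtain ⟨r, hr, rfl⟩ := mem_image.1 hc
  exact (mem_filter.1 hr).2

theorem sum_le6 (g : Fin 3 → P6) (T S : Finset (Fin 6)) : ∑ r ∈ S, NT' g r T ≤ 3 * T.card := by
  rw [← sumN g T]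
  exact sum_le_sum_of_subset (subset_univ _)

theorem RP.RR1 {σ' : P6} {R' C' : Finset (Fin 6)} (h : RP g σ R C) (h' : RP g σ' R' C') :
    C = C' := by
  classical
  by_contra hne
  have hT1 : C ∩ C' ⊆ C := inter_subset_left
  have hT2 : C ∩ C' ⊆ C' := inter_subset_right
  have c1 := card_union_add_card_inter C C'
  have c2 := card_le_univ (C ∪ C')
  rw [Fintype.card_fin] at c2
  rw [h.2.1, h'.2.1] at c1
  have c3 : (C ∩ C').card ≤ 3 := by
    by_contra h1
    have h2 : C ∩ C' = C := eq_of_subset_of_card_le hT1 (by rw [h.2.1]; omega)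
    have h3 : C ∩ C' = C' := eq_of_subset_of_card_le hT2 (by rw [h'.2.1]; omega)
    exact hne (h2.symm.trans h3)
  have s1 := h.sum hT1
  have s2 := h'.sum hT2
  have k1 := h.cnt (C ∩ C')
  have k2 := h'.cnt (C ∩ C')
  have s3 := sum_union_inter (s₁ := R) (s₂ := R') (f := fun r => NT' g r (C ∩ C'))
  have s4 := sum_le6 g (C ∩ C') (R ∪ R')
  by_cases hd : R ∩ R' = ∅
  · rw [hd, sum_empty] at s3
    omega
  · obtain ⟨x, hx⟩ := nonempty_iff_ne_empty.2 hd
    have key : ∀ y ∈ R ∩ R', σ y ∉ C ∩ C' ∧ σ' y ∉ C ∩ C' ∧ (C ∩ C').card = 3 := by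
      intro y hy
      obtain ⟨hy1, hy2⟩ := mem_inter.1 hy
      have e1 := (h.spec hy1).1
      have e2 := (h'.spec hy2).1
      have e3 : (C.erase (σ y)).card = 3 := by
        rw [card_erase_of_mem (h.spec hy1).2.1, h.2.1]
      have e4 : C.erase (σ y) ⊆ C ∩ C' := by
        intro c hc
        refine mem_inter.2 ⟨mem_of_mem_erase hc, ?_⟩
        rw [← e1, e2] at hc
        exact mem_of_mem_erase hc
      have e5 : C.erase (σ y) = C ∩ C' := eq_of_subset_of_card_le e4 (by omega)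
      refine ⟨?_, ?_, ?_⟩
      · rw [← e5]; exact notMem_erase _ _
      · rw [← e5, ← e1, e2]; exact notMem_erase _ _
      · rw [← e5, e3]
    obtain ⟨kx1, kx2, kx3⟩ := key x hx
    obtain ⟨hx1, hx2⟩ := mem_inter.1 hx
    have hone : R ∩ R' = {x} := by
      rw [eq_singleton_iff_unique_mem]
      refine ⟨hx, fun y hy => ?_⟩
      obtain ⟨ky1, -, -⟩ := key y hy
      have e1 : (C \ (C ∩ C')).card = 1 := by
        rw [card_sdiff_of_subset hT1, h.2.1, kx3]
      obtain ⟨p, hp⟩ := card_eq_one.1 e1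
      have e2 : σ x ∈ C \ (C ∩ C') := mem_sdiff.2 ⟨(h.spec hx1).2.1, kx1⟩
      have e3 : σ y ∈ C \ (C ∩ C') := mem_sdiff.2 ⟨(h.spec (mem_inter.1 hy).1).2.1, ky1⟩
      rw [hp, mem_singleton] at e2 e3
      exact σ.injective (e3.trans e2.symm)
    have k3 : (R.filter fun r => σ r ∈ C ∩ C').card ≤ 2 := by
      have : (R.filter fun r => σ r ∈ C ∩ C') ⊆ R.erase x := by
        intro r hr
        obtain ⟨e1, e2⟩ := mem_filter.1 hr
        exact mem_erase.2 ⟨fun e => kx1 (e ▸ e2), e1⟩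
      have := card_le_card this
      rwa [card_erase_of_mem hx1, h.1] at this
    have k4 : (R'.filter fun r => σ' r ∈ C ∩ C').card ≤ 2 := by
      have : (R'.filter fun r => σ' r ∈ C ∩ C') ⊆ R'.erase x := by
        intro r hr
        obtain ⟨e1, e2⟩ := mem_filter.1 hr
        exact mem_erase.2 ⟨fun e => kx2 (e ▸ e2), e1⟩
      have := card_le_card this
      rwa [card_erase_of_mem hx2, h'.1] at this
    have k5 : NT' g x (C ∩ C') ≤ 3 := by
      rw [h.N hx1 hT1]
      exact (card_erase_le).trans (by omega)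
    rw [hone, sum_singleton] at s3
    omega

theorem RP.eq_of (h : RP g σ R C) {σ' : P6} {R' : Finset (Fin 6)} (h' : RP g σ' R' C)
    {r : Fin 6} (hr : r ∈ R) (hr' : r ∈ R') : σ r = σ' r := by
  classical
  have e1 := (h.spec hr).1
  have e2 := (h'.spec hr').1
  by_contra hne
  have h1 : σ r ∈ C.erase (σ' r) := mem_erase.2 ⟨hne, (h.spec hr).2.1⟩
  rw [← e2, e1] at h1
  exact (mem_erase.1 h1).1 rfl

theorem RP.RC (h : RP g σ R C) {ρ : P6} {R' C' : Finset (Fin 6)} (h' : RP (ginv g) ρ C' R') :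
    R ⊆ R' := by
  classical
  by_contra hcon
  obtain ⟨r1, hr1, hr1'⟩ := not_subset.1 hcon
  -- images of rows outside R' avoid C'
  have key1 : ∀ r ∈ R, r ∉ R' → C.erase (σ r) ⊆ C \ C' := by
    intro r hr hr' c hc
    rw [mem_sdiff]
    refine ⟨mem_of_mem_erase hc, fun hc' => hr' ?_⟩
    rw [← (h.spec hr).1] at hc
    obtain ⟨i, -, rfl⟩ := mem_image.1 hc
    have h1 := h'.mem hc' i
    have h2 : (ginv g i) (g i r) = r := (g i).symm_apply_apply r
    rwa [h2] at h1
  have key2 : ∀ c ∈ C', c ∉ C → R'.erase (ρ c) ⊆ R' \ R := by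
    intro c hc hc' r hr
    rw [mem_sdiff]
    refine ⟨mem_of_mem_erase hr, fun hr' => hc' ?_⟩
    rw [← (h'.spec hc).1] at hr
    obtain ⟨i, -, rfl⟩ := mem_image.1 hr
    have h1 := h.mem hr' i
    have h2 : (g i) ((ginv g i) c) = c := (g i).apply_symm_apply c
    rwa [h2] at h1
  have a1 := card_le_card (key1 r1 hr1 hr1')
  rw [card_erase_of_mem (h.spec hr1).2.1, h.2.1] at a1
  have a2 := card_sdiff_add_card_inter C C'
  rw [h.2.1] at a2
  obtain ⟨c, hc, hc'⟩ : ∃ c ∈ C', c ∉ C := by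
    by_contra hc
    push Not at hc
    have h1 : C ∩ C' = C' := inter_eq_right.2 hc
    rw [h1, h'.1] at a2
    omega
  have a3 := card_le_card (key2 c hc hc')
  rw [card_erase_of_mem (h'.spec hc).2.1, h'.2.1] at a3
  have a4 := card_sdiff_add_card_inter R' R
  rw [h'.2.1] at a4
  have a5 := card_sdiff_add_card_inter R R'
  rw [h.1, inter_comm] at a5
  obtain ⟨r2, hr2, hr21⟩ : ∃ r2 ∈ R \ R', r2 ≠ r1 := by
    obtain ⟨u, hu, v, hv, huv⟩ := key_two (s := R \ R') (by omega)
    by_cases h1 : u = r1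
    · exact ⟨v, hv, fun e => huv (h1.trans e.symm)⟩
    · exact ⟨u, hu, h1⟩
  have c1 := card_union_add_card_inter C C'
  have c2 := card_le_univ (C ∪ C')
  rw [Fintype.card_fin] at c2
  rw [h.2.1, h'.1] at c1
  have e1 : C.erase (σ r1) = C \ C' := eq_of_subset_of_card_le (key1 r1 hr1 hr1') (by
    rw [card_erase_of_mem (h.spec hr1).2.1, h.2.1]; omega)
  have e2 : C.erase (σ r2) = C \ C' :=
    eq_of_subset_of_card_le (key1 r2 (mem_sdiff.1 hr2).1 (mem_sdiff.1 hr2).2) (by
      rw [card_erase_of_mem (h.spec (mem_sdiff.1 hr2).1).2.1, h.2.1]; omega)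
  have e3 : σ r2 ∉ C.erase (σ r1) := by
    rw [e1, ← e2]; exact notMem_erase _ _
  exact e3 (mem_erase.2 ⟨fun e => hr21 (σ.injective e), (h.spec (mem_sdiff.1 hr2).1).2.1⟩)

end

/-- four rows, four columns -/
def FT (g : Fin 3 → P6) (Q C : Finset (Fin 6)) (m : P6) : Prop :=
  Q.card = 4 ∧ C.card = 4 ∧ (∀ r ∈ Q, ∀ i, g i r ∈ C) ∧
    (∀ r ∈ Q, Function.Injective fun i => g i r) ∧ (∀ r ∈ Q, m r ∈ C) ∧ ∀ r ∈ Q, ∀ i, g i r ≠ m r

theorem mapsto_inv {π : P6} {Q C : Finset (Fin 6)} (h : ∀ r ∈ Q, π r ∈ C)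
    (hcard : C.card ≤ Q.card) {c : Fin 6} (hc : c ∈ C) : π⁻¹ c ∈ Q := by
  classical
  have h1 : Q.image π ⊆ C := by
    intro c hc
    obtain ⟨r, hr, rfl⟩ := mem_image.1 hc
    exact h r hr
  have h2 : Q.image π = C := eq_of_subset_of_card_le h1 (by
    rw [card_image_of_injective _ π.injective]; exact hcard)
  rw [← h2] at hc
  obtain ⟨r, hr, rfl⟩ := mem_image.1 hc
  have : π⁻¹ (π r) = r := π.symm_apply_apply r
  rwa [this]

theorem FT.inv {g : Fin 3 → P6} {Q C : Finset (Fin 6)} {m : P6} (h : FT g Q C m) :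
    FT (ginv g) C Q m⁻¹ := by
  obtain ⟨h1, h2, h3, h4, h5, h6⟩ := h
  have hcard : C.card ≤ Q.card := by omega
  have k1 : ∀ c ∈ C, ∀ i, (g i)⁻¹ c ∈ Q := fun c hc i => mapsto_inv (fun r hr => h3 r hr i) hcard hc
  refine ⟨h2, h1, k1, ?_, fun c hc => mapsto_inv h5 hcard hc, ?_⟩
  · intro c hc i j hij
    refine h4 ((g i)⁻¹ c) (k1 c hc i) ?_
    show g i ((g i)⁻¹ c) = g j ((g i)⁻¹ c)
    have e1 : g i ((g i)⁻¹ c) = c := (g i).apply_symm_apply c
    have e2 : g j ((g j)⁻¹ c) = c := (g j).apply_symm_apply c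
    have e3 : (g i)⁻¹ c = (g j)⁻¹ c := hij
    rw [e1, e3, e2]
  · intro c hc i e
    have e0 : (g i)⁻¹ c = m⁻¹ c := e
    have e1 : g i ((g i)⁻¹ c) = c := (g i).apply_symm_apply c
    have e2 : m (m⁻¹ c) = c := m.apply_symm_apply c
    refine h6 _ (k1 c hc i) i ?_
    rw [e1, e0, e2]

theorem FT.miss {g : Fin 3 → P6} {Q C : Finset (Fin 6)} {m : P6} (h : FT g Q C m) {r c : Fin 6}
    (hr : r ∈ Q) (hc : c ∈ C) (hg : ∀ i, g i r ≠ c) : c = m r := by
  classical
  obtain ⟨h1, h2, h3, h4, h5, h6⟩ := h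
  have k1 : (univ.image fun i => g i r).card = 3 := by
    rw [card_image_of_injective _ (h4 r hr), card_univ, Fintype.card_fin]
  have k2 : insert (m r) (univ.image fun i => g i r) = C := by
    refine eq_of_subset_of_card_le ?_ ?_
    · intro x hx
      rcases mem_insert.1 hx with rfl | hx
      · exact h5 r hr
      · obtain ⟨i, -, rfl⟩ := mem_image.1 hx
        exact h3 r hr i
    · rw [card_insert_of_notMem, k1, h2]
      intro hx
      obtain ⟨i, -, hi⟩ := mem_image.1 hx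
      exact h6 r hr i hi
  rw [← k2] at hc
  rcases mem_insert.1 hc with hc | hc
  · exact hc
  · obtain ⟨i, -, hi⟩ := mem_image.1 hc
    exact absurd hi (hg i)

/-- extension of partial injections to permutations, one step -/
theorem ext_step (m : P6) (b b' : Fin 6) :
    ∃ m' : P6, m' b = b' ∧ ∀ y, y ≠ b → m y ≠ b' → m' y = m y := by
  refine ⟨Equiv.swap (m b) b' * m, ?_, fun y hy hy' => ?_⟩
  · rw [Equiv.Perm.mul_apply, Equiv.swap_apply_left]
  · rw [Equiv.Perm.mul_apply, Equiv.swap_apply_of_ne_of_ne (fun e => hy (m.injective e)) hy']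

theorem ext_perm (f : Fin 6 → Fin 6) (s : Finset (Fin 6))
    (hf : ∀ x ∈ s, ∀ y ∈ s, f x = f y → x = y) : ∃ m : P6, ∀ x ∈ s, m x = f x := by
  classical
  induction s using Finset.induction_on with
  | empty => exact ⟨1, fun x hx => absurd hx (notMem_empty x)⟩
  | insert b s hb ih =>
    obtain ⟨m, hm⟩ := ih fun x hx y hy => hf x (mem_insert_of_mem hx) y (mem_insert_of_mem hy)
    obtain ⟨m', h1, h2⟩ := ext_step m b (f b)
    refine ⟨m', fun x hx => ?_⟩
    rcases mem_insert.1 hx with rfl | hx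
    · exact h1
    · rw [h2 x (fun e => hb (e ▸ hx)) (fun e => ?_), hm x hx]
      rw [hm x hx] at e
      exact hb (hf x (mem_insert_of_mem hx) b (mem_insert_self _ _) e ▸ hx)

end H65.CP
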