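import Pool.Agent.H65.CP.Class

/-!
# Classification of the permutations blocked by three permutations, II
-/

namespace H65.CP

open Finset

/-- first alternative: a common pair of cells, and one of two further cells -/
def NTT (g : Fin 3 → P6) : Prop :=
  ∃ (m : P6) (a b c d : Fin 6), a ≠ b ∧ a ≠ c ∧ b ≠ c ∧ a ≠ d ∧ b ≠ d ∧ c ≠ d ∧
    ∀ σ, Blk g σ → σ a = m a ∧ σ b = m b ∧ (σ c = m c ∨ σ d = m d)

/-- second alternative: four rows and four columns -/
def FTT (g : Fin 3 → P6) : Prop :=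
  ∃ (Q C : Finset (Fin 6)) (m : P6), FT g Q C m ∧
    ∀ σ, Blk g σ → 3 ≤ (Q.filter fun q => σ q = m q).card

theorem FTT.inv {g : Fin 3 → P6} (h : FTT (ginv g)) : FTT g := by
  classical
  obtain ⟨Q, C, m, h1, h2⟩ := h
  have h3 := h1.inv
  rw [ginv_ginv] at h3
  refine ⟨C, Q, m⁻¹, h3, fun σ hσ => (h2 _ hσ.inv).trans ?_⟩
  rw [← card_image_of_injective _ m.injective]
  refine card_le_card fun q hq => ?_
  obtain ⟨c, hc, rfl⟩ := mem_image.1 hq
  obtain ⟨hc1, hc2⟩ := mem_filter.1 hc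
  refine mem_filter.2 ⟨h1.2.2.2.2.1 c hc1, ?_⟩
  rw [← hc2]
  have e1 : σ (σ⁻¹ c) = c := σ.apply_symm_apply c
  rw [e1, hc2]
  exact (m.symm_apply_apply c).symm

theorem RR2 {g : Fin 3 → P6} {σ₁ σ₂ : P6} {R₁ R₂ C : Finset (Fin 6)} (h1 : RP g σ₁ R₁ C)
    (h2 : RP g σ₂ R₂ C) (hne : R₁ ≠ R₂) : ∃ m, FT g (R₁ ∪ R₂) C m := by
  classical
  have k1 : ∀ r ∈ R₁ ∪ R₂, ∀ i, g i r ∈ C := by
    intro r hr i
    rcases mem_union.1 hr with hr | hr
    · exact h1.mem hr i
    · exact h2.mem hr i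
  have k2 : (R₁ ∪ R₂).card ≤ 4 := by
    rw [← card_image_of_injective _ (g 0).injective, ← h1.2.1]
    refine card_le_card fun c hc => ?_
    obtain ⟨r, hr, rfl⟩ := mem_image.1 hc
    exact k1 r hr 0
  have k3 : 4 ≤ (R₁ ∪ R₂).card := by
    by_contra hcon
    have e1 : R₁ = R₁ ∪ R₂ := eq_of_subset_of_card_le subset_union_left (by rw [h1.1]; omega)
    have e2 : R₂ = R₁ ∪ R₂ := eq_of_subset_of_card_le subset_union_right (by rw [h2.1]; omega)
    exact hne (e1.trans e2.symm)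
  have k4 : ∀ r ∈ R₁ ∪ R₂, Function.Injective fun i => g i r := by
    intro r hr
    rcases mem_union.1 hr with hr | hr
    · exact (h1.spec hr).2.2
    · exact (h2.spec hr).2.2
  obtain ⟨f, hf⟩ : ∃ f : Fin 6 → Fin 6, ∀ r ∈ R₁ ∪ R₂, f r ∈ C ∧ ∀ i, g i r ≠ f r := by
    refine ⟨fun r => if r ∈ R₁ then σ₁ r else σ₂ r, fun r hr => ?_⟩
    beta_reduce
    by_cases hr1 : r ∈ R₁
    · rw [if_pos hr1]
      exact ⟨(h1.spec hr1).2.1, h1.ne hr1⟩
    · rw [if_neg hr1]
      have hr2 := (mem_union.1 hr).resolve_left hr1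
      exact ⟨(h2.spec hr2).2.1, h2.ne hr2⟩
  obtain ⟨m, hm⟩ := ext_perm f (R₁ ∪ R₂) (by
    intro x hx y hy hxy
    by_contra hne'
    have hcard : C.card ≤ (R₁ ∪ R₂).card := by rw [h1.2.1]; omega
    have e1 : ∀ i, (g i)⁻¹ (f x) ∈ ((R₁ ∪ R₂).erase x).erase y := by
      intro i
      have e2 : g i ((g i)⁻¹ (f x)) = f x := (g i).apply_symm_apply _
      refine mem_erase.2 ⟨fun e => ?_, mem_erase.2 ⟨fun e => ?_,
        mapsto_inv (fun r hr => k1 r hr i) hcard (hf x hx).1⟩⟩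
      · rw [e, hxy] at e2
        exact (hf y hy).2 i e2
      · rw [e] at e2
        exact (hf x hx).2 i e2
    have e2 : (((R₁ ∪ R₂).erase x).erase y).card = 2 := by
      rw [card_erase_of_mem (mem_erase.2 ⟨fun e => hne' e.symm, hy⟩), card_erase_of_mem hx]
      omega
    have e3 : Function.Injective fun i => (g i)⁻¹ (f x) := by
      intro i j hij
      have hij' : (g i)⁻¹ (f x) = (g j)⁻¹ (f x) := hij
      have hmem := mem_of_mem_erase (mem_of_mem_erase (e1 i))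
      refine k4 _ hmem ?_
      show g i ((g i)⁻¹ (f x)) = g j ((g i)⁻¹ (f x))
      have e4 : g i ((g i)⁻¹ (f x)) = f x := (g i).apply_symm_apply _
      have e5 : g j ((g j)⁻¹ (f x)) = f x := (g j).apply_symm_apply _
      rw [e4, hij', e5]
    have e4 : (univ.image fun i => (g i)⁻¹ (f x)) ⊆ ((R₁ ∪ R₂).erase x).erase y := by
      intro z hz
      obtain ⟨i, -, rfl⟩ := mem_image.1 hz
      exact e1 i
    have e5 := card_le_card e4
    rw [card_image_of_injective _ e3, card_univ, Fintype.card_fin] at e5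
    omega)
  refine ⟨m, by omega, h1.2.1, k1, k4, fun r hr => ?_, fun r hr i => ?_⟩
  · rw [hm r hr]; exact (hf r hr).1
  · rw [hm r hr]; exact (hf r hr).2 i

theorem FT_blk {g : Fin 3 → P6} {σ₁ σ₂ : P6} {R₁ R₂ C : Finset (Fin 6)} {m : P6}
    (h : FT g (R₁ ∪ R₂) C m) (h1 : RP g σ₁ R₁ C) (h2 : RP g σ₂ R₂ C) {σ : P6} (hσ : Blk g σ) :
    3 ≤ ((R₁ ∪ R₂).filter fun q => σ q = m q).card := by
  classical
  have hcard : C.card ≤ (R₁ ∪ R₂).card := by rw [h.1, h.2.1]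
  obtain ⟨R, C', h3 | h3⟩ := hσ.pat
  · have hC := h1.RR1 h3
    subst hC
    rw [← h3.1]
    refine card_le_card fun r hr => ?_
    have hrQ : r ∈ R₁ ∪ R₂ := by
      have e1 := mapsto_inv (fun r hr => h.2.2.1 r hr 0) hcard (h3.mem hr 0)
      have e2 : (g 0)⁻¹ (g 0 r) = r := (g 0).symm_apply_apply r
      rwa [e2] at e1
    exact mem_filter.2 ⟨hrQ, h.miss hrQ (h3.spec hr).2.1 fun i => h3.ne hr i⟩
  · have e1 := h1.RC h3
    have e2 := h2.RC h3
    have e3 : R₁ ∪ R₂ = R := eq_of_subset_of_card_le (union_subset e1 e2) (by rw [h.1, h3.2.1])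
    have e4 : C' ⊆ C := h3.RC (by rw [ginv_ginv]; exact h1)
    rw [← h3.1, ← card_image_of_injective _ σ⁻¹.injective]
    refine card_le_card fun q hq => ?_
    obtain ⟨c, hc, rfl⟩ := mem_image.1 hq
    have hqQ : σ⁻¹ c ∈ R₁ ∪ R₂ := by rw [e3]; exact (h3.spec hc).2.1
    refine mem_filter.2 ⟨hqQ, ?_⟩
    have e5 : σ (σ⁻¹ c) = c := σ.apply_symm_apply c
    rw [e5]
    refine h.miss hqQ (e4 hc) fun i e => h3.ne hc i ?_
    exact ((inv_eq' (g i) _ _).2 e.symm).symm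

theorem FTT_of {g : Fin 3 → P6} {σ₁ σ₂ : P6} {R₁ R₂ C₁ C₂ : Finset (Fin 6)} (h1 : RP g σ₁ R₁ C₁)
    (h2 : RP g σ₂ R₂ C₂) (hne : R₁ ≠ R₂) : FTT g := by
  have hC := h1.RR1 h2
  subst hC
  obtain ⟨m, hm⟩ := RR2 h1 h2 hne
  exact ⟨_, _, m, hm, fun σ hσ => FT_blk hm h1 h2 hσ⟩

theorem exists_other (a b c : Fin 6) : ∃ d, d ≠ a ∧ d ≠ b ∧ d ≠ c := by
  classical
  by_contra h
  push Not at h
  have h1 : (univ : Finset (Fin 6)) ⊆ {a, b, c} := by
    intro x _
    rw [mem_insert, mem_insert, mem_singleton]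
    by_contra hc
    push Not at hc
    exact hc.2.2 (h x hc.1 hc.2.1)
  have h2 := card_le_card h1
  have h3 := Finset.card_le_three (a := a) (b := b) (c := c)
  rw [card_univ, Fintype.card_fin] at h2
  omega

theorem exists_third {R : Finset (Fin 6)} (hR : R.card = 3) {a b : Fin 6} (ha : a ∈ R) (hb : b ∈ R)
    (hab : a ≠ b) : ∃ c ∈ R, c ≠ a ∧ c ≠ b := by
  classical
  have h1 : ((R.erase a).erase b).card = 1 := by
    rw [card_erase_of_mem (mem_erase.2 ⟨hab.symm, hb⟩), card_erase_of_mem ha, hR]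
  obtain ⟨c, hc⟩ := card_eq_one.1 h1
  have h2 : c ∈ (R.erase a).erase b := by rw [hc]; exact mem_singleton_self _
  obtain ⟨h3, h4⟩ := mem_erase.1 h2
  obtain ⟨h5, h6⟩ := mem_erase.1 h4
  exact ⟨c, h6, h5, h3⟩

theorem NTT_of_three {g : Fin 3 → P6} {m : P6} {a b c : Fin 6} (hab : a ≠ b) (hac : a ≠ c)
    (hbc : b ≠ c) (h : ∀ σ, Blk g σ → σ a = m a ∧ σ b = m b ∧ σ c = m c) : NTT g := by
  obtain ⟨d, hda, hdb, hdc⟩ := exists_other a b c
  exact ⟨m, a, b, c, d, hab, hac, hbc, hda.symm, hdb.symm, hdc.symm, fun σ hσ =>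
    ⟨(h σ hσ).1, (h σ hσ).2.1, Or.inl (h σ hσ).2.2⟩⟩

theorem classify (g : Fin 3 → P6) : NTT g ∨ FTT g := by
  classical
  by_cases hA : ∃ σ₁ R₁ C₁ σ₂ R₂ C₂, RP g σ₁ R₁ C₁ ∧ RP g σ₂ R₂ C₂ ∧ R₁ ≠ R₂
  · obtain ⟨σ₁, R₁, C₁, σ₂, R₂, C₂, h1, h2, h3⟩ := hA
    exact Or.inr (FTT_of h1 h2 h3)
  by_cases hB : ∃ σ₁ R₁ C₁ σ₂ R₂ C₂, RP (ginv g) σ₁ R₁ C₁ ∧ RP (ginv g) σ₂ R₂ C₂ ∧ R₁ ≠ R₂
  · obtain ⟨σ₁, R₁, C₁, σ₂, R₂, C₂, h1, h2, h3⟩ := hB
    exact Or.inr (FTT.inv (FTT_of h1 h2 h3))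
  left
  push Not at hA hB
  have row : ∀ {σ₁ R C}, RP g σ₁ R C → ∀ {σ R' C'}, RP g σ R' C' → ∀ r ∈ R, σ r = σ₁ r := by
    intro σ₁ R C h1 σ R' C' h2 r hr
    have e1 := h1.RR1 h2
    have e2 := hA _ _ _ _ _ _ h1 h2
    subst e1 e2
    exact h2.eq_of h1 hr hr
  have col : ∀ {ρ C R}, RP (ginv g) ρ C R → ∀ {σ : P6} {C' R'}, RP (ginv g) σ⁻¹ C' R' →
      ∀ c ∈ C, σ (ρ c) = c := by
    intro ρ C R h1 σ C' R' h2 c hc
    have e1 := h1.RR1 h2
    have e2 := hB _ _ _ _ _ _ h1 h2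
    subst e1 e2
    have e3 := h2.eq_of h1 hc hc
    rw [← e3]
    exact σ.apply_symm_apply c
  by_cases hr : ∃ σ₁ R C, RP g σ₁ R C
  · obtain ⟨σ₁, R, C, h1⟩ := hr
    by_cases hc : ∃ ρ C' R', RP (ginv g) ρ C' R'
    · obtain ⟨ρ, C', R', h2⟩ := hc
      have hRR := h1.RC h2
      have hCC : C' ⊆ C := h2.RC (by rw [ginv_ginv]; exact h1)
      have agree : ∀ r ∈ R, σ₁ r ∈ C' → ρ (σ₁ r) = r := by
        intro r hr hrC
        by_contra hne
        have e1 : r ∈ R'.erase (ρ (σ₁ r)) := mem_erase.2 ⟨fun e => hne e.symm, hRR hr⟩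
        rw [← (h2.spec hrC).1] at e1
        obtain ⟨i, -, hi⟩ := mem_image.1 e1
        exact h1.ne hr i (((inv_eq' (g i) _ _).1 hi.symm).symm)
      have h3 : 2 ≤ (R.filter fun r => σ₁ r ∈ C').card := by
        have e1 : (R.filter fun r => ¬ σ₁ r ∈ C').card ≤ 1 := by
          have e2 : (C \ C').card = 1 := by
            rw [card_sdiff_of_subset hCC, h1.2.1, h2.1]
          rw [← card_image_of_injective _ σ₁.injective, ← e2]
          refine card_le_card fun c hc => ?_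
          obtain ⟨r, hr, rfl⟩ := mem_image.1 hc
          obtain ⟨hr1, hr2⟩ := mem_filter.1 hr
          exact mem_sdiff.2 ⟨(h1.spec hr1).2.1, hr2⟩
        have e3 := card_filter_add_card_filter_not (s := R) (fun r => σ₁ r ∈ C')
        rw [h1.1] at e3
        omega
      obtain ⟨a, ha, b, hb, hab⟩ := key_two h3
      obtain ⟨ha1, ha2⟩ := mem_filter.1 ha
      obtain ⟨hb1, hb2⟩ := mem_filter.1 hb
      obtain ⟨r0, hr0, hr0a, hr0b⟩ := exists_third h1.1 ha1 hb1 hab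
      have base : ∀ σ, Blk g σ → σ a = σ₁ a ∧ σ b = σ₁ b := by
        intro σ hσ
        obtain ⟨R'', C'', h4 | h4⟩ := hσ.pat
        · exact ⟨row h1 h4 a ha1, row h1 h4 b hb1⟩
        · have e1 := col h2 h4 _ ha2
          have e2 := col h2 h4 _ hb2
          rw [agree a ha1 ha2] at e1
          rw [agree b hb1 hb2] at e2
          exact ⟨e1, e2⟩
      by_cases h5 : σ₁ r0 ∈ C'
      · refine NTT_of_three (m := σ₁) hab hr0a.symm hr0b.symm fun σ hσ => ?_
        refine ⟨(base σ hσ).1, (base σ hσ).2, ?_⟩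
        obtain ⟨R'', C'', h4 | h4⟩ := hσ.pat
        · exact row h1 h4 r0 hr0
        · have e1 := col h2 h4 _ h5
          rwa [agree r0 hr0 h5] at e1
      · obtain ⟨c0, hc0, hc0a, hc0b⟩ := exists_third h2.1 ha2 hb2
          (fun e => hab (σ₁.injective e))
        have hρa : ρ c0 ≠ a := fun e => hc0a (ρ.injective (e.trans (agree a ha1 ha2).symm))
        have hρb : ρ c0 ≠ b := fun e => hc0b (ρ.injective (e.trans (agree b hb1 hb2).symm))
        have hc0r : c0 ≠ σ₁ r0 := fun e => h5 (e ▸ hc0)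
        have hρr : ρ c0 ≠ r0 := by
          intro e
          have e1 : c0 ∈ C.erase (σ₁ r0) := mem_erase.2 ⟨hc0r, hCC hc0⟩
          rw [← (h1.spec hr0).1] at e1
          obtain ⟨i, -, hi⟩ := mem_image.1 e1
          refine h2.ne hc0 i ?_
          rw [e]
          exact ((inv_eq' (g i) _ _).2 hi.symm).symm
        obtain ⟨m, hm1, hm2⟩ := ext_step σ₁ (ρ c0) c0
        refine ⟨m, a, b, r0, ρ c0, hab, hr0a.symm, hr0b.symm, hρa.symm, hρb.symm, hρr.symm,
          fun σ hσ => ?_⟩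
        rw [hm2 a hρa.symm hc0a.symm, hm2 b hρb.symm hc0b.symm, hm2 r0 hρr.symm hc0r.symm, hm1]
        refine ⟨(base σ hσ).1, (base σ hσ).2, ?_⟩
        obtain ⟨R'', C'', h4 | h4⟩ := hσ.pat
        · exact Or.inl (row h1 h4 r0 hr0)
        · exact Or.inr (col h2 h4 c0 hc0)
    · obtain ⟨a, b, c, hab, hac, hbc, hR⟩ := card_eq_three.1 h1.1
      refine NTT_of_three (m := σ₁) hab hac hbc fun σ hσ => ?_
      obtain ⟨R'', C'', h4 | h4⟩ := hσ.pat
      · exact ⟨row h1 h4 a (by rw [hR]; simp), row h1 h4 b (by rw [hR]; simp),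
          row h1 h4 c (by rw [hR]; simp)⟩
      · exact absurd ⟨_, _, _, h4⟩ hc
  · by_cases hc : ∃ ρ C' R', RP (ginv g) ρ C' R'
    · obtain ⟨ρ, C', R', h2⟩ := hc
      obtain ⟨a, b, c, hab, hac, hbc, hC⟩ := card_eq_three.1 h2.1
      have inj := ρ.injective
      refine NTT_of_three (m := ρ⁻¹) (a := ρ a) (b := ρ b) (c := ρ c) (fun e => hab (inj e))
        (fun e => hac (inj e)) (fun e => hbc (inj e)) fun σ hσ => ?_
      have e1 : ∀ x, ρ⁻¹ (ρ x) = x := ρ.symm_apply_apply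
      rw [e1, e1, e1]
      obtain ⟨R'', C'', h4 | h4⟩ := hσ.pat
      · exact absurd ⟨_, _, _, h4⟩ hr
      · exact ⟨col h2 h4 a (by rw [hC]; simp), col h2 h4 b (by rw [hC]; simp),
          col h2 h4 c (by rw [hC]; simp)⟩
    · refine NTT_of_three (m := 1) (a := 0) (b := 1) (c := 2) (by decide) (by decide) (by decide)
        fun σ hσ => ?_
      obtain ⟨R'', C'', h4 | h4⟩ := hσ.pat
      · exact absurd ⟨_, _, _, h4⟩ hr
      · exact absurd ⟨_, _, _, h4⟩ hc

/-- Every blocked permutation contains three of four fixed cells. -/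
theorem class_M (g : Fin 3 → P6) : ∃ (Q : Finset (Fin 6)) (m : P6), Q.card = 4 ∧
    ∀ σ, Blk g σ → 3 ≤ (Q.filter fun q => σ q = m q).card := by
  classical
  rcases classify g with ⟨m, a, b, c, d, hab, hac, hbc, had, hbd, hcd, h⟩ | ⟨Q, C, m, h1, h2⟩
  · refine ⟨{a, b, c, d}, m, ?_, fun σ hσ => ?_⟩
    · rw [card_insert_of_notMem, card_insert_of_notMem, card_pair hcd]
      · simp [hbc, hbd]
      · simp [hab, hac, had]
    · obtain ⟨h3, h4, h5⟩ := h σ hσ
      rcases h5 with h5 | h5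
      · rw [← card_eq_three.2 ⟨a, b, c, hab, hac, hbc, rfl⟩]
        refine card_le_card fun x hx => ?_
        simp only [mem_insert, mem_singleton] at hx
        rcases hx with rfl | rfl | rfl <;> simp [*]
      · rw [← card_eq_three.2 ⟨a, b, d, hab, had, hbd, rfl⟩]
        refine card_le_card fun x hx => ?_
        simp only [mem_insert, mem_singleton] at hx
        rcases hx with rfl | rfl | rfl <;> simp [*]
  · exact ⟨Q, m, h1.1, h2⟩

/-- Incompatibility of two structures of the second kind. -/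
theorem incompat {s2 s3 s4 t1 : P6} {Q C Q' C' : Finset (Fin 6)} {m m' : P6}
    (h : FT ![s2, s3, s4] Q C m) (h' : FT ![t1, s3, s4] Q' C' m')
    (h3 : (Q.filter fun q => t1 q = m q).card = 3) : False := by
  classical
  have hcard : C.card ≤ Q.card := by rw [h.1, h.2.1]
  have hcard' : C'.card ≤ Q'.card := by rw [h'.1, h'.2.1]
  -- the fourth row
  obtain ⟨q4, hq4⟩ : ∃ q4, q4 ∈ Q ∧ t1 q4 ≠ m q4 := by
    by_contra hc
    push Not at hc
    have : (Q.filter fun q => t1 q = m q) = Q := by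
      rw [filter_eq_self]; exact hc
    rw [this, h.1] at h3
    omega
  have hone : ∀ q ∈ Q, q ≠ q4 → t1 q = m q := by
    intro q hq hne
    by_contra hcon
    have e1 : (Q.filter fun q => t1 q = m q) ⊆ (Q.erase q4).erase q := by
      intro x hx
      obtain ⟨hx1, hx2⟩ := mem_filter.1 hx
      refine mem_erase.2 ⟨?_, mem_erase.2 ⟨?_, hx1⟩⟩
      · rintro rfl; exact hcon hx2
      · rintro rfl; exact hq4.2 hx2
    have e2 := card_le_card e1
    rw [card_erase_of_mem (mem_erase.2 ⟨hne, hq⟩), card_erase_of_mem hq4.1, h.1] at e2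
    omega
  have ht4 : t1 q4 ∉ C := by
    intro hc
    have e1 := mapsto_inv h.2.2.2.2.1 hcard hc
    have e2 : m (m⁻¹ (t1 q4)) = t1 q4 := m.apply_symm_apply _
    by_cases e3 : m⁻¹ (t1 q4) = q4
    · rw [e3] at e2
      exact hq4.2 e2.symm
    · have e4 := hone _ e1 e3
      rw [e2] at e4
      exact e3 (t1.injective e4)
  have s3C : ∀ r, s3 r ∈ C → r ∈ Q := by
    intro r hr
    have e1 := mapsto_inv (fun r hr => h.2.2.1 r hr 1) hcard hr
    have e2 : s3⁻¹ (s3 r) = r := s3.symm_apply_apply r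
    rw [← e2]
    exact e1
  have s4C : ∀ r, s4 r ∈ C → r ∈ Q := by
    intro r hr
    have e1 := mapsto_inv (fun r hr => h.2.2.1 r hr 2) hcard hr
    have e2 : s4⁻¹ (s4 r) = r := s4.symm_apply_apply r
    rw [← e2]
    exact e1
  have hCc : Cᶜ.card = 2 := by rw [card_compl, h.2.1, Fintype.card_fin]
  have hQQ : Q' ≠ Q := by
    rintro rfl
    have e1 : C ⊆ C' := by
      intro c hc
      have e1 := mapsto_inv (fun r hr => h.2.2.1 r hr 1) hcard hc
      have e2 := h'.2.2.1 _ e1 1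
      have e3 : s3 (s3⁻¹ c) = c := s3.apply_symm_apply c
      rw [← e3]
      exact e2
    have e2 : C = C' := eq_of_subset_of_card_le e1 (by rw [h.2.1, h'.2.1])
    exact ht4 (e2 ▸ h'.2.2.1 q4 hq4.1 0)
  -- rows of Q' outside Q
  have key : ∀ r ∈ Q', r ∉ Q → t1 r ∈ C ∧ Cᶜ ⊆ C' := by
    intro r hr hrQ
    have a1 : s3 r ≠ s4 r := by
      intro e
      have := h'.2.2.2.1 r hr (show (fun i => ![t1, s3, s4] i r) 1 = (fun i => ![t1, s3, s4] i r) 2
        from e)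
      exact absurd this (by decide)
    have a2 : t1 r ≠ s3 r := by
      intro e
      have := h'.2.2.2.1 r hr (show (fun i => ![t1, s3, s4] i r) 0 = (fun i => ![t1, s3, s4] i r) 1
        from e)
      exact absurd this (by decide)
    have a3 : t1 r ≠ s4 r := by
      intro e
      have := h'.2.2.2.1 r hr (show (fun i => ![t1, s3, s4] i r) 0 = (fun i => ![t1, s3, s4] i r) 2
        from e)
      exact absurd this (by decide)
    have b3 : s3 r ∈ Cᶜ := mem_compl.2 fun hc => hrQ (s3C r hc)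
    have b4 : s4 r ∈ Cᶜ := mem_compl.2 fun hc => hrQ (s4C r hc)
    have e1 : ({s3 r, s4 r} : Finset (Fin 6)) = Cᶜ := by
      refine eq_of_subset_of_card_le ?_ (by rw [card_pair a1, hCc])
      intro x hx
      rcases mem_insert.1 hx with rfl | hx
      · exact b3
      · rw [mem_singleton.1 hx]; exact b4
    constructor
    · by_contra hc
      have e2 : t1 r ∈ Cᶜ := mem_compl.2 hc
      rw [← e1, mem_insert, mem_singleton] at e2
      rcases e2 with e2 | e2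
      · exact a2 e2
      · exact a3 e2
    · rw [← e1]
      intro x hx
      rcases mem_insert.1 hx with rfl | hx
      · exact h'.2.2.1 r hr 1
      · rw [mem_singleton.1 hx]; exact h'.2.2.1 r hr 2
  obtain ⟨r, hr, hrQ⟩ : ∃ r ∈ Q', r ∉ Q := by
    by_contra hc
    push Not at hc
    exact hQQ (eq_of_subset_of_card_le hc (by rw [h.1, h'.1]))
  have hCC := (key r hr hrQ).2
  -- at least two rows in Q' \ Q
  have h2 : 2 ≤ (Q' \ Q).card := by
    rw [← hCc, ← card_image_of_injective _ s3⁻¹.injective]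
    refine card_le_card fun x hx => ?_
    obtain ⟨c, hc, rfl⟩ := mem_image.1 hx
    refine mem_sdiff.2 ⟨mapsto_inv (fun r hr => h'.2.2.1 r hr 1) hcard' (hCC hc), fun hq => ?_⟩
    have e1 := h.2.2.1 _ hq 1
    have e2 : s3 (s3⁻¹ c) = c := s3.apply_symm_apply c
    exact mem_compl.1 hc (e2 ▸ e1)
  have h4 : ((Q.erase q4) ∪ (Q' \ Q)).card ≤ 4 := by
    rw [← h.2.1, ← card_image_of_injective _ t1.injective]
    refine card_le_card fun x hx => ?_
    obtain ⟨y, hy, rfl⟩ := mem_image.1 hx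
    rcases mem_union.1 hy with hy | hy
    · obtain ⟨hy1, hy2⟩ := mem_erase.1 hy
      rw [hone y hy2 hy1]
      exact h.2.2.2.2.1 y hy2
    · obtain ⟨hy1, hy2⟩ := mem_sdiff.1 hy
      exact (key y hy1 hy2).1
  rw [card_union_of_disjoint, card_erase_of_mem hq4.1, h.1] at h4
  · omega
  · rw [disjoint_left]
    intro x hx hx'
    exact (mem_sdiff.1 hx').2 (mem_of_mem_erase hx)

end H65.CP
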