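import Mathlib

/-!
# Perfect matchings of bipartite graphs on 6 + 6 vertices

A bipartite graph with a perfect matching is a reflexive relation `E` on `Fin 6` (the matching is
the identity); its perfect matchings are the permutations `π` with `E i (π i)` for all `i`.
-/

namespace H65.CP

open Finset

theorem hall6 (A : Fin 6 → Fin 6 → Prop) [DecidableRel A]
    (h : ∀ s : Finset (Fin 6), s.card ≤ (s.biUnion fun i => univ.filter fun j => A i j).card) :
    ∃ τ : Equiv.Perm (Fin 6), ∀ r, A r (τ r) := by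
  obtain ⟨f, hf, hf'⟩ := (Finset.all_card_le_biUnion_card_iff_exists_injective
    (fun i => univ.filter fun j => A i j)).1 h
  refine ⟨Equiv.ofBijective f (Finite.injective_iff_bijective.1 hf), fun r => ?_⟩
  exact (mem_filter.1 (hf' r)).2

theorem hall_block (A : Fin 6 → Fin 6 → Prop) :
    (∃ τ : Equiv.Perm (Fin 6), ∀ r, A r (τ r)) ∨
      ∃ R C : Finset (Fin 6), R.card + C.card = 7 ∧ ∀ r ∈ R, ∀ c ∈ C, ¬ A r c := by
  classical
  by_cases h : ∀ s : Finset (Fin 6), s.card ≤ (s.biUnion fun i => univ.filter fun j => A i j).card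
  · exact Or.inl (hall6 A h)
  · right
    push Not at h
    obtain ⟨s, hs⟩ := h
    have h1 : (s.biUnion fun i => univ.filter fun j => A i j)ᶜ.card =
        6 - (s.biUnion fun i => univ.filter fun j => A i j).card := by
      rw [card_compl, Fintype.card_fin]
    have h2 : s.card ≤ 6 := by
      have := card_le_univ s
      rwa [Fintype.card_fin] at this
    obtain ⟨C, hC, hC'⟩ := exists_subset_card_eq (s := (s.biUnion fun i =>
      univ.filter fun j => A i j)ᶜ) (n := 7 - s.card) (by omega)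
    refine ⟨s, C, by omega, fun r hr c hc hA => ?_⟩
    have h3 := hC hc
    rw [mem_compl] at h3
    exact h3 (mem_biUnion.2 ⟨r, hr, mem_filter.2 ⟨mem_univ _, hA⟩⟩)

/-- Closed sets. -/
def Clo (E : Fin 6 → Fin 6 → Prop) (P : Finset (Fin 6)) : Prop := ∀ i ∈ P, ∀ j, E i j → j ∈ P

theorem dig_ext {E : Fin 6 → Fin 6 → Prop} (hr : ∀ i, E i i) {r y : Fin 6} (hE : E r y)
    (h : ∀ P, Clo E P → y ∈ P → r ∈ P) :
    ∃ π : Equiv.Perm (Fin 6), (∀ i, E i (π i)) ∧ π r = y := by
  classical
  obtain ⟨π, hπ⟩ := hall6 (fun i j => if i = r then j = y else E i j ∧ j ≠ y) (by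
    intro s
    let N : Finset (Fin 6) := s.biUnion fun i => univ.filter fun j =>
      if i = r then j = y else E i j ∧ j ≠ y
    have hN : ∀ j, j ∈ N ↔ ∃ i ∈ s, if i = r then j = y else E i j ∧ j ≠ y := by
      intro j
      simp only [N, mem_biUnion, mem_filter, mem_univ, true_and]
    show s.card ≤ N.card
    have key : (s.erase r).card ≤ (N.erase y).card := by
      by_cases hy : y ∈ s.erase r
      · have h1 : ¬ Clo E (s.erase r) := fun hc => (mem_erase.1 (h _ hc hy)).1 rfl
        unfold Clo at h1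
        push Not at h1
        obtain ⟨i, hi, j, hij, hj⟩ := h1
        have h2 : insert j ((s.erase r).erase y) ⊆ N.erase y := by
          intro z hz
          rcases mem_insert.1 hz with rfl | hz
          · have hzy : z ≠ y := fun e => hj (e ▸ hy)
            refine mem_erase.2 ⟨hzy, (hN z).2 ⟨i, (mem_erase.1 hi).2, ?_⟩⟩
            rw [if_neg (mem_erase.1 hi).1]
            exact ⟨hij, hzy⟩
          · obtain ⟨h3, h4⟩ := mem_erase.1 hz
            refine mem_erase.2 ⟨h3, (hN z).2 ⟨z, (mem_erase.1 h4).2, ?_⟩⟩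
            rw [if_neg (mem_erase.1 h4).1]
            exact ⟨hr z, h3⟩
        have h5 := card_le_card h2
        rw [card_insert_of_notMem (fun h6 => hj (mem_erase.1 h6).2), card_erase_add_one hy] at h5
        exact h5
      · refine card_le_card fun z hz => ?_
        have hzy : z ≠ y := fun e => hy (e ▸ hz)
        refine mem_erase.2 ⟨hzy, (hN z).2 ⟨z, (mem_erase.1 hz).2, ?_⟩⟩
        rw [if_neg (mem_erase.1 hz).1]
        exact ⟨hr z, hzy⟩
    by_cases hrs : r ∈ s
    · have h1 : y ∈ N := (hN y).2 ⟨r, hrs, by rw [if_pos rfl]⟩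
      rw [← card_erase_add_one hrs, ← card_erase_add_one h1]
      omega
    · rw [erase_eq_of_notMem hrs] at key
      exact key.trans (card_le_card (erase_subset _ _)))
  refine ⟨π, fun i => ?_, ?_⟩
  · have h1 := hπ i
    by_cases hi : i = r
    · rw [if_pos hi] at h1
      rw [h1, hi]
      exact hE
    · rw [if_neg hi] at h1
      exact h1.1
  · have h1 := hπ r
    rwa [if_pos rfl] at h1

/-- Reflexive relation with out- and in-neighbours. -/
structure Dg (E : Fin 6 → Fin 6 → Prop) : Prop where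
  refl : ∀ i, E i i
  out : ∀ i, ∃ j, j ≠ i ∧ E i j
  inn : ∀ j, ∃ i, i ≠ j ∧ E i j

theorem Dg.op {E : Fin 6 → Fin 6 → Prop} (h : Dg E) : Dg fun i j => E j i :=
  ⟨h.refl, h.inn, h.out⟩

theorem dig_part {E : Fin 6 → Fin 6 → Prop} (h : Dg E) {P : Finset (Fin 6)} (hP : Clo E P)
    (hne : P.Nonempty) :
    ∃ π : Equiv.Perm (Fin 6), (∀ i, E i (π i)) ∧ (∀ i, π i ≠ i → i ∈ P) ∧ π ≠ 1 := by
  classical
  obtain ⟨T, hT, hTmin⟩ : ∃ T : Finset (Fin 6), (Clo E T ∧ T.Nonempty ∧ T ⊆ P) ∧
      ∀ T' : Finset (Fin 6), Clo E T' ∧ T'.Nonempty ∧ T' ⊆ P → T.card ≤ T'.card := by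
    obtain ⟨T, hT, hTm⟩ := Finset.exists_min_image
      ((univ : Finset (Finset (Fin 6))).filter fun T => Clo E T ∧ T.Nonempty ∧ T ⊆ P)
      (fun T => T.card) ⟨P, mem_filter.2 ⟨mem_univ _, hP, hne, subset_rfl⟩⟩
    exact ⟨T, (mem_filter.1 hT).2, fun T' h' => hTm T' (mem_filter.2 ⟨mem_univ _, h'⟩)⟩
  obtain ⟨hTc, ⟨t, ht⟩, hTP⟩ := hT
  obtain ⟨y, hyt, hty⟩ := h.out t
  have hyT : y ∈ T := hTc t ht y hty
  obtain ⟨π, h1, h2⟩ := dig_ext (E := fun i j => i = j ∨ (i ∈ T ∧ j ∈ T ∧ E i j))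
    (fun i => Or.inl rfl) (r := t) (y := y) (Or.inr ⟨ht, hyT, hty⟩) (by
      intro P' hP' hyP'
      have h3 : Clo E (P' ∩ T) := by
        intro i hi j hij
        obtain ⟨h4, h5⟩ := mem_inter.1 hi
        have h6 := hTc i h5 j hij
        exact mem_inter.2 ⟨hP' i h4 j (Or.inr ⟨h5, h6, hij⟩), h6⟩
      have h4 := hTmin (P' ∩ T) ⟨h3, ⟨y, mem_inter.2 ⟨hyP', hyT⟩⟩,
        inter_subset_right.trans hTP⟩
      have h5 : P' ∩ T = T := eq_of_subset_of_card_le inter_subset_right h4
      rw [← h5] at ht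
      exact (mem_inter.1 ht).1)
  refine ⟨π, fun i => ?_, fun i hi => ?_, ?_⟩
  · rcases h1 i with h3 | h3
    · rw [← h3]; exact h.refl i
    · exact h3.2.2
  · rcases h1 i with h3 | h3
    · exact absurd h3.symm hi
    · exact hTP h3.1
  · intro h3
    rw [h3] at h2
    exact hyt h2.symm

/-- Dichotomy. -/
theorem dig_dich {E : Fin 6 → Fin 6 → Prop} (h : Dg E) :
    (∀ r y, E r y → ∃ π : Equiv.Perm (Fin 6), (∀ i, E i (π i)) ∧ π r = y) ∨
    ∃ π₁ π₂ : Equiv.Perm (Fin 6), (∀ i, E i (π₁ i)) ∧ (∀ i, E i (π₂ i)) ∧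
      Disjoint π₁.support π₂.support ∧ 2 ≤ π₁.support.card ∧ 2 ≤ π₂.support.card := by
  classical
  by_cases hsc : ∃ P : Finset (Fin 6), Clo E P ∧ P.Nonempty ∧ P ≠ univ
  · right
    obtain ⟨P, hP, hne, hnu⟩ := hsc
    obtain ⟨π₁, h1, h2, h3⟩ := dig_part h hP hne
    have hPc : Clo (fun i j => E j i) Pᶜ := by
      intro i hi j hij
      rw [mem_compl] at hi ⊢
      exact fun hj => hi (hP j hj i hij)
    obtain ⟨π₂, h4, h5, h6⟩ := dig_part h.op hPc (by
      rw [nonempty_iff_ne_empty]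
      intro h7
      exact hnu (compl_eq_empty_iff P |>.1 h7))
    refine ⟨π₁, π₂⁻¹, h1, fun i => ?_, ?_, ?_, ?_⟩
    · have h7 := h4 (π₂⁻¹ i)
      have h8 : π₂ (π₂⁻¹ i) = i := π₂.apply_symm_apply i
      rwa [h8] at h7
    · rw [Equiv.Perm.support_inv, disjoint_left]
      intro i hi hi'
      have h7 := h2 i (Equiv.Perm.mem_support.1 hi)
      have h8 := h5 i (Equiv.Perm.mem_support.1 hi')
      exact (mem_compl.1 h8) h7
    · exact Equiv.Perm.two_le_card_support_of_ne_one h3
    · rw [Equiv.Perm.support_inv]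
      exact Equiv.Perm.two_le_card_support_of_ne_one h6
  · left
    push Not at hsc
    intro r y hry
    refine dig_ext h.refl hry fun P hP hy => ?_
    rw [hsc P hP ⟨y, hy⟩]
    exact mem_univ _

theorem dig_mul {E : Fin 6 → Fin 6 → Prop} {π₁ π₂ : Equiv.Perm (Fin 6)} (h1 : ∀ i, E i (π₁ i))
    (h2 : ∀ i, E i (π₂ i)) (hd : Disjoint π₁.support π₂.support) (i : Fin 6) :
    E i ((π₁ * π₂) i) := by
  rw [Equiv.Perm.mul_apply]
  by_cases hi : π₂ i = i
  · rw [hi]; exact h1 i
  · have h3 : π₂ i ∈ π₂.support := Equiv.Perm.apply_mem_support.2 (Equiv.Perm.mem_support.2 hi)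
    have h4 : π₁ (π₂ i) = π₂ i := by
      by_contra h5
      exact (disjoint_left.1 hd) (Equiv.Perm.mem_support.2 h5) h3
    rw [h4]; exact h2 i

theorem dig_mul_ne {π₁ π₂ : Equiv.Perm (Fin 6)}
    (hd : Disjoint π₁.support π₂.support) {i : Fin 6} (hi : π₁ i ≠ i ∨ π₂ i ≠ i) :
    (π₁ * π₂) i ≠ i := by
  have h1 : (π₁ * π₂).support = π₁.support ∪ π₂.support :=
    Equiv.Perm.Disjoint.support_mul (Equiv.Perm.disjoint_iff_disjoint_support.2 hd)
  rw [← Equiv.Perm.mem_support, h1, mem_union, Equiv.Perm.mem_support, Equiv.Perm.mem_support]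
  exact hi

/-- Some row of a set of four rows can be moved. -/
theorem dig_moveQ {E : Fin 6 → Fin 6 → Prop} (h : Dg E) {Q : Finset (Fin 6)} (hQ : 4 ≤ Q.card) :
    ∃ π : Equiv.Perm (Fin 6), (∀ i, E i (π i)) ∧ ∃ q ∈ Q, π q ≠ q := by
  classical
  rcases dig_dich h with h1 | ⟨π₁, π₂, h1, h2, h3, h4, h5⟩
  · obtain ⟨q, hq⟩ : Q.Nonempty := by
      rw [← card_pos]; omega
    obtain ⟨y, hy, hqy⟩ := h.out q
    obtain ⟨π, h2, h3⟩ := h1 q y hqy
    exact ⟨π, h2, q, hq, by rw [h3]; exact hy⟩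
  · have h6 : ¬ Disjoint Q (π₁.support ∪ π₂.support) := by
      intro h7
      have h8 := card_le_univ (Q ∪ (π₁.support ∪ π₂.support))
      rw [card_union_of_disjoint h7, card_union_of_disjoint h3, Fintype.card_fin] at h8
      omega
    obtain ⟨q, hq, hq'⟩ := not_disjoint_iff.1 h6
    rcases mem_union.1 hq' with h7 | h7
    · exact ⟨π₁, h1, q, hq, Equiv.Perm.mem_support.1 h7⟩
    · exact ⟨π₂, h2, q, hq, Equiv.Perm.mem_support.1 h7⟩

/-- Patterns of type 1 and 2 can be avoided. -/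
theorem dig_avoid {E : Fin 6 → Fin 6 → Prop} (h : Dg E) {a b c d e : Fin 6} (hab : a ≠ b)
    (hac : a ≠ c) (hbc : b ≠ c) (had : a ≠ d) (hbd : b ≠ d) (hcd : c ≠ d) (hec : e ≠ c) :
    ∃ π : Equiv.Perm (Fin 6), (∀ i, E i (π i)) ∧ ¬ (π a = a ∧ π b = b ∧ (π c = c ∨ π d = e)) := by
  classical
  rcases dig_dich h with h1 | ⟨π₁, π₂, h1, h2, h3, h4, h5⟩
  · obtain ⟨y, hy, hay⟩ := h.out a
    obtain ⟨π, h2, h3⟩ := h1 a y hay
    exact ⟨π, h2, fun h4 => hy (h3.symm.trans h4.1)⟩
  · by_contra hcon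
    push Not at hcon
    have k1 := hcon π₁ h1
    have k2 := hcon π₂ h2
    have k3 := hcon (π₁ * π₂) (dig_mul h1 h2 h3)
    have hU : (π₁.support ∪ π₂.support) ⊆ ({a, b} : Finset (Fin 6))ᶜ := by
      intro x hx
      rw [mem_compl, mem_insert, mem_singleton]
      rintro (rfl | rfl)
      · rcases mem_union.1 hx with h6 | h6
        · exact Equiv.Perm.mem_support.1 h6 k1.1
        · exact Equiv.Perm.mem_support.1 h6 k2.1
      · rcases mem_union.1 hx with h6 | h6
        · exact Equiv.Perm.mem_support.1 h6 k1.2.1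
        · exact Equiv.Perm.mem_support.1 h6 k2.2.1
    have hUc : (({a, b} : Finset (Fin 6))ᶜ).card = 4 := by
      rw [card_compl, card_pair hab, Fintype.card_fin]
    have hUcard := card_union_of_disjoint h3
    have hUeq : π₁.support ∪ π₂.support = ({a, b} : Finset (Fin 6))ᶜ :=
      eq_of_subset_of_card_le hU (by omega)
    rw [hUeq, hUc] at hUcard
    have hc : c ∈ π₁.support ∪ π₂.support := by
      rw [hUeq, mem_compl, mem_insert, mem_singleton]
      rintro (rfl | rfl)
      · exact hac rfl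
      · exact hbc rfl
    have hd : d ∈ π₁.support ∪ π₂.support := by
      rw [hUeq, mem_compl, mem_insert, mem_singleton]
      rintro (rfl | rfl)
      · exact had rfl
      · exact hbd rfl
    have hmc : (π₁ * π₂) c ≠ c := dig_mul_ne h3 ((mem_union.1 hc).imp
      Equiv.Perm.mem_support.1 Equiv.Perm.mem_support.1)
    have hmd : (π₁ * π₂) d ≠ d := dig_mul_ne h3 ((mem_union.1 hd).imp
      Equiv.Perm.mem_support.1 Equiv.Perm.mem_support.1)
    have k3' : (π₁ * π₂) d = e := k3.2.2.resolve_left hmc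
    have part : ∀ π : Equiv.Perm (Fin 6), π.support.card = 2 → c ∈ π.support →
        (π c = c ∨ π d = e) → False := by
      intro π hπ hcπ hbad
      rcases hbad with h6 | h6
      · exact Equiv.Perm.mem_support.1 hcπ h6
      · by_cases hdπ : d ∈ π.support
        · have h7 : π.support = {c, d} := by
            refine (eq_of_subset_of_card_le ?_ ?_).symm
            · intro x hx
              rcases mem_insert.1 hx with rfl | hx
              · exact hcπ
              · rw [mem_singleton.1 hx]; exact hdπ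
            · rw [hπ, card_pair hcd]
          have h8 : π d ∈ π.support := Equiv.Perm.apply_mem_support.2 hdπ
          rw [h7, mem_insert, mem_singleton] at h8
          rcases h8 with h8 | h8
          · exact hec (h6.symm.trans h8)
          · exact Equiv.Perm.mem_support.1 hdπ h8
        · have h7 : π d = d := by
            by_contra h8
            exact hdπ (Equiv.Perm.mem_support.2 h8)
          rw [h7] at h6
          rw [← h6] at k3'
          exact hmd k3'
    rcases mem_union.1 hc with h6 | h6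
    · exact part π₁ (by omega) h6 k1.2.2
    · exact part π₂ (by omega) h6 k2.2.2

end H65.CP
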