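import Pool.Agent.H65.CP.Class2

/-!
# Extension lemmas for permutations
-/

namespace H65.CP

open Finset

/-- `a` permutations to avoid, and `b` systems of four cells, of which at most two may be used -/
def Ext (a b : ℕ) : Prop :=
  ∀ (s : Fin a → P6) (Q : Fin b → Finset (Fin 6)) (m : Fin b → P6), (∀ j, (Q j).card = 4) →
    ∃ τ : P6, (∀ i r, τ r ≠ s i r) ∧ ∀ j, ((Q j).filter fun q => τ q = m j q).card ≤ 2

theorem rdeg_ge {A : Fin 6 → Fin 6 → Prop} {r : Fin 6} (B : Finset (Fin 6))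
    (h : ∀ c, ¬ A r c → c ∈ B) : 6 ≤ rdeg A r + B.card := by
  classical
  unfold rdeg
  have h1 : (univ : Finset (Fin 6)) ⊆ (univ.filter fun j => A r j) ∪ B := by
    intro c _
    by_cases hc : A r c
    · exact mem_union_left _ (mem_filter.2 ⟨mem_univ _, hc⟩)
    · exact mem_union_right _ (h c hc)
  have h2 := card_le_card h1
  have h3 := card_union_le (univ.filter fun j => A r j) B
  rw [card_univ, Fintype.card_fin] at h2
  omega

theorem pair_of_four {Q : Finset (Fin 6)} (hQ : 2 ≤ Q.card) :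
    ∃ Z ⊆ Q, Z.card = 2 := exists_subset_card_eq hQ

theorem filter_le_two {Q Z : Finset (Fin 6)} (hQ : Q.card = 4) (hZ : Z ⊆ Q) (hZc : Z.card = 2)
    {τ m : P6} (h : ∀ z ∈ Z, τ z ≠ m z) : (Q.filter fun q => τ q = m q).card ≤ 2 := by
  classical
  have h1 : (Q.filter fun q => τ q = m q) ⊆ Q \ Z := by
    intro q hq
    obtain ⟨h2, h3⟩ := mem_filter.1 hq
    exact mem_sdiff.2 ⟨h2, fun h4 => h q h4 h3⟩
  have h2 := card_le_card h1
  rw [card_sdiff_of_subset hZ, hQ, hZc] at h2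
  exact h2

theorem inv_of_eq {π : P6} {r c : Fin 6} (h : c = π r) : r = π⁻¹ c := (inv_eq' π r c).2 h

theorem ext_31 : Ext 3 1 := by
  classical
  intro s Q m hQ
  obtain ⟨Z, hZ, hZc⟩ := pair_of_four (Q := Q 0) (by rw [hQ 0]; norm_num)
  let A : Fin 6 → Fin 6 → Prop := fun r c => (∀ i, c ≠ s i r) ∧ ¬ (r ∈ Z ∧ c = m 0 r)
  have hA : ∀ r c, ¬ A r c → (∃ i, c = s i r) ∨ (r ∈ Z ∧ c = m 0 r) := by
    intro r c h
    by_contra hc
    push Not at hc
    exact h ⟨hc.1, fun h1 => hc.2 h1.1 h1.2⟩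
  have card3 : ∀ f : Fin 3 → Fin 6, (univ.image f).card ≤ 3 := fun f =>
    card_image_le.trans (by simp)
  have r1 : ∀ r, 2 ≤ rdeg A r := by
    intro r
    have h1 := rdeg_ge (A := A) (r := r) (insert (m 0 r) (univ.image fun i => s i r)) (by
      intro c hc
      rcases hA r c hc with ⟨i, hi⟩ | ⟨h1, h2⟩
      · exact mem_insert_of_mem (mem_image.2 ⟨i, mem_univ _, hi.symm⟩)
      · rw [h2]; exact mem_insert_self _ _)
    have h2 := card_insert_le (m 0 r) (univ.image fun i => s i r)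
    have h3 := card3 fun i => s i r
    omega
  have r2 : ∀ r, r ∉ Z → 3 ≤ rdeg A r := by
    intro r hr
    have h1 := rdeg_ge (A := A) (r := r) (univ.image fun i => s i r) (by
      intro c hc
      rcases hA r c hc with ⟨i, hi⟩ | ⟨h1, h2⟩
      · exact mem_image.2 ⟨i, mem_univ _, hi.symm⟩
      · exact absurd h1 hr)
    have h3 := card3 fun i => s i r
    omega
  have c1 : ∀ c, 2 ≤ rdeg (fun c r => A r c) c := by
    intro c
    have h1 := rdeg_ge (A := fun c r => A r c) (r := c)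
      (insert ((m 0)⁻¹ c) (univ.image fun i => (s i)⁻¹ c)) (by
      intro r hr
      rcases hA r c hr with ⟨i, hi⟩ | ⟨h1, h2⟩
      · exact mem_insert_of_mem (mem_image.2 ⟨i, mem_univ _, (inv_of_eq hi).symm⟩)
      · rw [← inv_of_eq h2]; exact mem_insert_self _ _)
    have h2 := card_insert_le ((m 0)⁻¹ c) (univ.image fun i => (s i)⁻¹ c)
    have h3 := card3 fun i => (s i)⁻¹ c
    omega
  have c2 : ∀ c, (m 0)⁻¹ c ∉ Z → 3 ≤ rdeg (fun c r => A r c) c := by
    intro c hc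
    have h1 := rdeg_ge (A := fun c r => A r c) (r := c) (univ.image fun i => (s i)⁻¹ c) (by
      intro r hr
      rcases hA r c hr with ⟨i, hi⟩ | ⟨h1, h2⟩
      · exact mem_image.2 ⟨i, mem_univ _, (inv_of_eq hi).symm⟩
      · exact absurd (inv_of_eq h2 ▸ h1) hc)
    have h3 := card3 fun i => (s i)⁻¹ c
    omega
  obtain ⟨τ, hτ⟩ := hall_deg r1 c1 (by
    rw [← hZc]
    refine card_le_card fun r hr => ?_
    by_contra h
    have := r2 r h
    have := (mem_filter.1 hr).2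
    omega) (by
    refine (card_le_card (t := Z.image (m 0)) fun c hc => ?_).trans_eq (by
      rw [card_image_of_injective _ (m 0).injective, hZc])
    by_contra h
    have h1 := c2 c fun h2 => h (mem_image.2 ⟨_, h2, (m 0).apply_symm_apply c⟩)
    have h5 : rdeg (fun c r => A r c) c ≤ 2 := (mem_filter.1 hc).2
    omega)
  refine ⟨τ, fun i r => (hτ r).1 i, fun j => ?_⟩
  rw [Subsingleton.elim j 0]
  exact filter_le_two (hQ 0) hZ hZc fun z hz h => (hτ z).2 ⟨hz, h⟩

theorem ext_24 : Ext 2 4 := by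
  classical
  intro s Q m hQ
  obtain ⟨Z1, hZ1, hZ1c⟩ := pair_of_four (Q := Q 0) (by rw [hQ 0]; norm_num)
  obtain ⟨Z2, hZ2', hZ2c⟩ := pair_of_four (Q := Q 1 \ Z1) (by
    have := le_card_sdiff Z1 (Q 1)
    rw [hQ 1, hZ1c] at this
    exact this)
  have hZ2 : Z2 ⊆ Q 1 := hZ2'.trans sdiff_subset
  have hZ21 : ∀ r ∈ Z2, r ∉ Z1 := fun r hr => (mem_sdiff.1 (hZ2' hr)).2
  obtain ⟨Z3, hZ3', hZ3c⟩ := pair_of_four
    (Q := Q 2 \ (Z1.image (m 0)).image ⇑((m 2)⁻¹)) (by
    have := le_card_sdiff ((Z1.image (m 0)).image ⇑((m 2)⁻¹)) (Q 2)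
    rw [hQ 2, card_image_of_injective _ (m 2)⁻¹.injective,
      card_image_of_injective _ (m 0).injective, hZ1c] at this
    exact this)
  have hZ3 : Z3 ⊆ Q 2 := hZ3'.trans sdiff_subset
  have hZ31 : ∀ c, (m 2)⁻¹ c ∈ Z3 → (m 0)⁻¹ c ∉ Z1 := by
    intro c hc hc'
    refine (mem_sdiff.1 (hZ3' hc)).2 (mem_image.2 ⟨c, mem_image.2 ⟨_, hc', ?_⟩, rfl⟩)
    exact (m 0).apply_symm_apply c
  let A : Fin 6 → Fin 6 → Prop := fun r c => (∀ i, c ≠ s i r) ∧ ¬ (r ∈ Z1 ∧ c = m 0 r) ∧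
    ¬ (r ∈ Z2 ∧ c = m 1 r) ∧ ¬ (r ∈ Z3 ∧ c = m 2 r)
  have hA : ∀ r c, ¬ A r c → (∃ i, c = s i r) ∨ (r ∈ Z1 ∧ c = m 0 r) ∨ (r ∈ Z2 ∧ c = m 1 r) ∨
      (r ∈ Z3 ∧ c = m 2 r) := by
    intro r c h
    by_contra hc
    simp only [not_or, not_exists] at hc
    exact h ⟨hc.1, hc.2.1, hc.2.2.1, hc.2.2.2⟩
  have card2 : ∀ f : Fin 2 → Fin 6, (univ.image f).card ≤ 2 := fun f =>
    card_image_le.trans (by simp)
  have rowgen : ∀ r : Fin 6, ∃ B : Finset (Fin 6), B.card ≤ 3 ∧
      (∀ c, ((∃ i, c = s i r) ∨ (r ∈ Z1 ∧ c = m 0 r) ∨ (r ∈ Z2 ∧ c = m 1 r)) → c ∈ B) := by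
    intro r
    by_cases h1 : r ∈ Z1
    · refine ⟨insert (m 0 r) (univ.image fun i => s i r), ?_, fun c hc => ?_⟩
      · have h2 := card_insert_le (m 0 r) (univ.image fun i => s i r)
        have h3 := card2 fun i => s i r
        omega
      · rcases hc with ⟨i, hi⟩ | ⟨-, hc⟩ | ⟨hc, -⟩
        · exact mem_insert_of_mem (mem_image.2 ⟨i, mem_univ _, hi.symm⟩)
        · rw [hc]; exact mem_insert_self _ _
        · exact absurd h1 (hZ21 r hc)
    · refine ⟨insert (m 1 r) (univ.image fun i => s i r), ?_, fun c hc => ?_⟩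
      · have h2 := card_insert_le (m 1 r) (univ.image fun i => s i r)
        have h3 := card2 fun i => s i r
        omega
      · rcases hc with ⟨i, hi⟩ | ⟨hc, -⟩ | ⟨-, hc⟩
        · exact mem_insert_of_mem (mem_image.2 ⟨i, mem_univ _, hi.symm⟩)
        · exact absurd hc h1
        · rw [hc]; exact mem_insert_self _ _
  have colgen : ∀ c : Fin 6, ∃ B : Finset (Fin 6), B.card ≤ 3 ∧
      (∀ r, ((∃ i, c = s i r) ∨ (r ∈ Z1 ∧ c = m 0 r) ∨ (r ∈ Z3 ∧ c = m 2 r)) → r ∈ B) := by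
    intro c
    by_cases h1 : (m 0)⁻¹ c ∈ Z1
    · refine ⟨insert ((m 0)⁻¹ c) (univ.image fun i => (s i)⁻¹ c), ?_, fun r hr => ?_⟩
      · have h2 := card_insert_le ((m 0)⁻¹ c) (univ.image fun i => (s i)⁻¹ c)
        have h3 := card2 fun i => (s i)⁻¹ c
        omega
      · rcases hr with ⟨i, hi⟩ | ⟨-, hc⟩ | ⟨hr, hc⟩
        · exact mem_insert_of_mem (mem_image.2 ⟨i, mem_univ _, (inv_of_eq hi).symm⟩)
        · rw [← inv_of_eq hc]; exact mem_insert_self _ _
        · exact absurd h1 (hZ31 c (inv_of_eq hc ▸ hr))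
    · refine ⟨insert ((m 2)⁻¹ c) (univ.image fun i => (s i)⁻¹ c), ?_, fun r hr => ?_⟩
      · have h2 := card_insert_le ((m 2)⁻¹ c) (univ.image fun i => (s i)⁻¹ c)
        have h3 := card2 fun i => (s i)⁻¹ c
        omega
      · rcases hr with ⟨i, hi⟩ | ⟨hr, hc⟩ | ⟨-, hc⟩
        · exact mem_insert_of_mem (mem_image.2 ⟨i, mem_univ _, (inv_of_eq hi).symm⟩)
        · exact absurd (inv_of_eq hc ▸ hr) h1
        · rw [← inv_of_eq hc]; exact mem_insert_self _ _
  have r2 : ∀ r, r ∉ Z3 → 3 ≤ rdeg A r := by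
    intro r hr
    obtain ⟨B, hB, hB'⟩ := rowgen r
    have h1 := rdeg_ge (A := A) (r := r) B (by
      intro c hc
      rcases hA r c hc with h | h | h | h
      · exact hB' c (Or.inl h)
      · exact hB' c (Or.inr (Or.inl h))
      · exact hB' c (Or.inr (Or.inr h))
      · exact absurd h.1 hr)
    omega
  have r1 : ∀ r, 2 ≤ rdeg A r := by
    intro r
    obtain ⟨B, hB, hB'⟩ := rowgen r
    have h1 := rdeg_ge (A := A) (r := r) (insert (m 2 r) B) (by
      intro c hc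
      rcases hA r c hc with h | h | h | h
      · exact mem_insert_of_mem (hB' c (Or.inl h))
      · exact mem_insert_of_mem (hB' c (Or.inr (Or.inl h)))
      · exact mem_insert_of_mem (hB' c (Or.inr (Or.inr h)))
      · rw [h.2]; exact mem_insert_self _ _)
    have h2 := card_insert_le (m 2 r) B
    omega
  have c2 : ∀ c, (m 1)⁻¹ c ∉ Z2 → 3 ≤ rdeg (fun c r => A r c) c := by
    intro c hc
    obtain ⟨B, hB, hB'⟩ := colgen c
    have h1 := rdeg_ge (A := fun c r => A r c) (r := c) B (by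
      intro r hr
      rcases hA r c hr with h | h | h | h
      · exact hB' r (Or.inl h)
      · exact hB' r (Or.inr (Or.inl h))
      · exact absurd (inv_of_eq h.2 ▸ h.1) hc
      · exact hB' r (Or.inr (Or.inr h)))
    omega
  have c1 : ∀ c, 2 ≤ rdeg (fun c r => A r c) c := by
    intro c
    obtain ⟨B, hB, hB'⟩ := colgen c
    have h1 := rdeg_ge (A := fun c r => A r c) (r := c) (insert ((m 1)⁻¹ c) B) (by
      intro r hr
      rcases hA r c hr with h | h | h | h
      · exact mem_insert_of_mem (hB' r (Or.inl h))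
      · exact mem_insert_of_mem (hB' r (Or.inr (Or.inl h)))
      · rw [← inv_of_eq h.2]; exact mem_insert_self _ _
      · exact mem_insert_of_mem (hB' r (Or.inr (Or.inr h))))
    have h2 := card_insert_le ((m 1)⁻¹ c) B
    omega
  obtain ⟨τ, hτ, hτ4⟩ := key_A r1 c1 (by
    rw [← hZ3c]
    refine card_le_card fun r hr => ?_
    by_contra h
    have := r2 r h
    have := (mem_filter.1 hr).2
    omega) (by
    refine (card_le_card (t := Z2.image (m 1)) fun c hc => ?_).trans_eq (by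
      rw [card_image_of_injective _ (m 1).injective, hZ2c])
    by_contra h
    have h1 := c2 c fun h2 => h (mem_image.2 ⟨_, h2, (m 1).apply_symm_apply c⟩)
    have h5 : rdeg (fun c r => A r c) c ≤ 2 := (mem_filter.1 hc).2
    omega) (hQ 3) (m 3)
  refine ⟨τ, fun i r => (hτ r).1 i, fun j => ?_⟩
  match j with
  | 0 => exact filter_le_two (hQ 0) hZ1 hZ1c fun z hz h => (hτ z).2.1 ⟨hz, h⟩
  | 1 => exact filter_le_two (hQ 1) hZ2 hZ2c fun z hz h => (hτ z).2.2.1 ⟨hz, h⟩
  | 2 => exact filter_le_two (hQ 2) hZ3 hZ3c fun z hz h => (hτ z).2.2.2 ⟨hz, h⟩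
  | 3 => exact hτ4

/-- eight permutations, any two of which agree in at most one place -/
def p8 : Fin 8 → Fin 6 → Fin 6 :=
  ![![0, 1, 2, 3, 4, 5], ![3, 2, 0, 5, 1, 4], ![1, 0, 5, 4, 2, 3], ![4, 5, 0, 3, 2, 1],
    ![5, 3, 1, 0, 2, 4], ![3, 4, 1, 2, 0, 5], ![5, 1, 4, 2, 3, 0], ![4, 3, 5, 1, 0, 2]]

theorem p8_inj : ∀ i, Function.Injective (p8 i) := by decide

theorem p8_agree : ∀ i j, i ≠ j → (univ.filter fun r => p8 i r = p8 j r).card ≤ 1 := by decide

theorem ext_07 : Ext 0 7 := by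
  classical
  intro s Q m hQ
  let p : Fin 8 → P6 := fun i => Equiv.ofBijective (p8 i)
    (Finite.injective_iff_bijective.1 (p8_inj i))
  have hp : ∀ i r, p i r = p8 i r := fun i r => rfl
  by_contra hcon
  push Not at hcon
  have h1 : ∀ i, ∃ j, 2 < ((Q j).filter fun q => p i q = m j q).card :=
    fun i => hcon (p i) (fun k => k.elim0)
  choose f hf using h1
  obtain ⟨i, i', hne, hfi⟩ := Fintype.exists_ne_map_eq_of_card_lt f (by simp)
  have h2 := hf i
  have h3 := hf i'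
  rw [← hfi] at h3
  have h4 := card_union_add_card_inter ((Q (f i)).filter fun q => p i q = m (f i) q)
    ((Q (f i)).filter fun q => p i' q = m (f i) q)
  have h5 : (((Q (f i)).filter fun q => p i q = m (f i) q) ∪
      ((Q (f i)).filter fun q => p i' q = m (f i) q)).card ≤ 4 := by
    rw [← hQ (f i)]
    exact card_le_card (union_subset (filter_subset _ _) (filter_subset _ _))
  have h6 : (((Q (f i)).filter fun q => p i q = m (f i) q) ∩
      ((Q (f i)).filter fun q => p i' q = m (f i) q)).card ≤ 1 := by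
    refine (card_le_card fun q hq => ?_).trans (p8_agree i i' hne)
    obtain ⟨h7, h8⟩ := mem_inter.1 hq
    refine mem_filter.2 ⟨mem_univ _, ?_⟩
    rw [← hp, ← hp, (mem_filter.1 h7).2, (mem_filter.1 h8).2]
  omega

/-- Moving a permutation out of the blocked set. -/
theorem avoid_N {g : Fin 3 → P6} (hN : NTT g) {s1 : P6} (hb : Blk g s1)
    {E : Fin 6 → Fin 6 → Prop} (hE : Dg E) :
    ∃ π : P6, (∀ i, E i (π i)) ∧ ¬ Blk g (s1 * π) := by
  obtain ⟨m, a, b, c, d, hab, hac, hbc, had, hbd, hcd, h⟩ := hN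
  obtain ⟨h1, h2, h3⟩ := h s1 hb
  have e0 : ∀ x, s1 (s1⁻¹ x) = x := s1.apply_symm_apply
  rcases h3 with h3 | h3
  · have hec : s1⁻¹ (m d) ≠ c := by
      intro e
      have := e0 (m d)
      rw [e, h3] at this
      exact hcd (m.injective this)
    obtain ⟨π, hπ, hπ'⟩ := dig_avoid hE hab hac hbc had hbd hcd hec
    refine ⟨π, hπ, fun hB => hπ' ?_⟩
    obtain ⟨k1, k2, k3⟩ := h _ hB
    rw [Equiv.Perm.mul_apply] at k1 k2
    refine ⟨s1.injective (k1.trans h1.symm), s1.injective (k2.trans h2.symm), ?_⟩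
    rcases k3 with k3 | k3
    · exact Or.inl (s1.injective (k3.trans h3.symm))
    · exact Or.inr (s1.injective (k3.trans (e0 _).symm))
  · have hec : s1⁻¹ (m c) ≠ d := by
      intro e
      have := e0 (m c)
      rw [e, h3] at this
      exact hcd (m.injective this).symm
    obtain ⟨π, hπ, hπ'⟩ := dig_avoid hE hab had hbd hac hbc hcd.symm hec
    refine ⟨π, hπ, fun hB => hπ' ?_⟩
    obtain ⟨k1, k2, k3⟩ := h _ hB
    rw [Equiv.Perm.mul_apply] at k1 k2
    refine ⟨s1.injective (k1.trans h1.symm), s1.injective (k2.trans h2.symm), ?_⟩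
    rcases k3 with k3 | k3
    · exact Or.inr (s1.injective (k3.trans (e0 _).symm))
    · exact Or.inl (s1.injective (k3.trans h3.symm))

end H65.CP
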