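import Pool.Agent.H65.CP.Ext

/-!
# Reducible configurations
-/

namespace H65.CP

open Finset

variable {V : Type*}

/-- a correspondence 6-cover: symmetric, and every colour has at most one partner -/
structure Cov (M : V → V → Fin 6 → Fin 6 → Prop) : Prop where
  symm : ∀ u v a b, M u v a b → M v u b a
  func : ∀ u v a b b', M u v a b → M u v a b' → b = b'

/-- six disjoint colourings of the vertices in `S` -/
def Good (G : SimpleGraph V) (M : V → V → Fin 6 → Fin 6 → Prop) (S : Finset V) (P : V → P6) :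
    Prop := ∀ u ∈ S, ∀ v ∈ S, G.Adj u v → ∀ k, ¬ M u v (P u k) (P v k)

def Pack (G : SimpleGraph V) (M : V → V → Fin 6 → Fin 6 → Prop) (S : Finset V) : Prop :=
  ∃ P, Good G M S P

open Classical in
/-- neighbours in `S` -/
noncomputable def nb (G : SimpleGraph V) (S : Finset V) (v : V) : Finset V :=
  S.filter fun u => G.Adj v u

theorem mem_nb {G : SimpleGraph V} {S : Finset V} {u v : V} :
    u ∈ nb G S v ↔ u ∈ S ∧ G.Adj v u := by
  classical
  unfold nb
  rw [mem_filter]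

theorem exists_pe {M : V → V → Fin 6 → Fin 6 → Prop} (h : Cov M) :
    ∃ pe : V → V → P6, ∀ u v a b, M u v a b → pe u v a = b := by
  classical
  have h1 : ∀ u v, ∃ π : P6, ∀ a b, M u v a b → π a = b := by
    intro u v
    obtain ⟨π, hπ⟩ := ext_perm (fun a => if h : ∃ b, M u v a b then h.choose else a)
      (univ.filter fun a => ∃ b, M u v a b) (by
      intro x hx y hy hxy
      have hx' := (mem_filter.1 hx).2
      have hy' := (mem_filter.1 hy).2
      beta_reduce at hxy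
      rw [dif_pos hx', dif_pos hy'] at hxy
      have e1 := h.symm _ _ _ _ hx'.choose_spec
      have e2 := h.symm _ _ _ _ hy'.choose_spec
      rw [← hxy] at e2
      exact h.func _ _ _ _ _ e1 e2)
    refine ⟨π, fun a b hab => ?_⟩
    have ha : ∃ b, M u v a b := ⟨b, hab⟩
    rw [hπ a (mem_filter.2 ⟨mem_univ _, ha⟩)]
    rw [dif_pos ha]
    exact h.func _ _ _ _ _ ha.choose_spec hab
  choose pe hpe using h1
  exact ⟨pe, hpe⟩

theorem enum [Nonempty V] (n : ℕ) {N : Finset V} (h : N.card ≤ n) :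
    ∃ e : Fin n → V, ∀ x ∈ N, ∃ i, e i = x := by
  classical
  refine ⟨fun i => if hi : i.1 < N.card then N.equivFin.symm ⟨i.1, hi⟩ else
    Classical.arbitrary V, fun x hx => ?_⟩
  let j := N.equivFin ⟨x, hx⟩
  refine ⟨⟨j.1, j.2.trans_le h⟩, ?_⟩
  beta_reduce
  rw [dif_pos j.2]
  show ((N.equivFin.symm ⟨j.1, j.2⟩ : N) : V) = x
  have : (⟨j.1, j.2⟩ : Fin N.card) = N.equivFin ⟨x, hx⟩ := rfl
  rw [this, Equiv.symm_apply_apply]

section

variable {G : SimpleGraph V} {M : V → V → Fin 6 → Fin 6 → Prop}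

theorem extend (hM : Cov M) {a b : ℕ} (hE : Ext a b) {S : Finset V} {v : V} (hv : v ∈ S)
    {W : Finset V} (hW : W ⊆ nb G S v) (hWb : W.card ≤ b)
    (hva : ∃ N : Finset V, N.card ≤ a ∧ ∀ u ∈ nb G S v, u ∉ W → u ∈ N)
    (hWd : ∀ w ∈ W, (nb G S w).card ≤ 4) (hind : ∀ w ∈ W, ∀ w' ∈ W, ¬ G.Adj w w')
    (hP : ∃ P : V → P6, ∀ u ∈ S, u ≠ v → u ∉ W → ∀ u' ∈ S, u' ≠ v → u' ∉ W → G.Adj u u' →
      ∀ k, ¬ M u u' (P u k) (P u' k)) : Pack G M S := by
  classical
  haveI : Nonempty V := ⟨v⟩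
  obtain ⟨pe, hpe⟩ := exists_pe hM
  obtain ⟨P, hP⟩ := hP
  obtain ⟨N, hN, hN'⟩ := hva
  have hg : ∀ w, ∃ g : Fin 3 → P6, w ∈ W → ∀ x ∈ nb G S w, x ≠ v → ∃ i, g i = pe x w * P x := by
    intro w
    by_cases hw : w ∈ W
    · have h1 : ((nb G S w).erase v).card ≤ 3 := by
        have h2 : v ∈ nb G S w := mem_nb.2 ⟨hv, (mem_nb.1 (hW hw)).2.symm⟩
        rw [card_erase_of_mem h2]
        have := hWd w hw
        omega
      obtain ⟨e, he⟩ := enum 3 h1
      refine ⟨fun i => pe (e i) w * P (e i), fun _ x hx hxv => ?_⟩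
      obtain ⟨i, hi⟩ := he x (mem_erase.2 ⟨hxv, hx⟩)
      exact ⟨i, by show pe (e i) w * P (e i) = _; rw [hi]⟩
    · exact ⟨fun _ => 1, fun h => absurd h hw⟩
  choose g hg using hg
  choose Q m hQ hblk using fun w => class_M (g w)
  obtain ⟨e, he⟩ := enum a hN
  obtain ⟨e', he'⟩ := enum b hWb
  obtain ⟨τ, hτ1, hτ2⟩ := hE (fun i => pe (e i) v * P (e i)) (fun j => Q (e' j))
    (fun j => (pe v (e' j))⁻¹ * m (e' j)) (fun j => hQ _)
  have hτw : ∀ w, ∃ τw : P6, w ∈ W → (∀ i r, τw r ≠ g w i r) ∧ ∀ r, τw r ≠ (pe v w * τ) r := by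
    intro w
    by_cases hw : w ∈ W
    · have h1 : ¬ Blk (g w) (pe v w * τ) := by
        intro hB
        obtain ⟨j, hj⟩ := he' w hw
        have h2 := hblk w _ hB
        have h3 := hτ2 j
        rw [hj] at h3
        have h4 : ((Q w).filter fun q => (pe v w * τ) q = m w q) ⊆
            ((Q w).filter fun q => τ q = ((pe v w)⁻¹ * m w) q) := by
          intro q hq
          obtain ⟨h5, h6⟩ := mem_filter.1 hq
          refine mem_filter.2 ⟨h5, ?_⟩
          rw [Equiv.Perm.mul_apply, ← h6, Equiv.Perm.mul_apply]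
          exact ((pe v w).symm_apply_apply _).symm
        have h5 := card_le_card h4
        omega
      unfold Blk at h1
      rw [not_not] at h1
      obtain ⟨τw, h2, h3⟩ := h1
      exact ⟨τw, fun _ => ⟨h2, h3⟩⟩
    · exact ⟨1, fun h => absurd h hw⟩
  choose τw hτw using hτw
  let P' : V → P6 := fun x => if x = v then τ else if x ∈ W then τw x else P x
  have P'v : P' v = τ := if_pos rfl
  have hvW : v ∉ W := fun h => (mem_nb.1 (hW h)).2.ne rfl
  have P'w : ∀ w ∈ W, P' w = τw w := fun w hw => by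
    show (if w = v then τ else if w ∈ W then τw w else P w) = _
    rw [if_neg (fun h : w = v => hvW (h ▸ hw)), if_pos hw]
  have P'o : ∀ x, x ≠ v → x ∉ W → P' x = P x := fun x hx hx' => by
    show (if x = v then τ else if x ∈ W then τw x else P x) = _
    rw [if_neg hx, if_neg hx']
  have A1 : ∀ u' ∈ S, G.Adj v u' → ∀ k, ¬ M v u' (P' v k) (P' u' k) := by
    intro u' hu' hadj k hk
    rw [P'v] at hk
    by_cases hw : u' ∈ W
    · rw [P'w u' hw] at hk
      exact (hτw u' hw).2 k (hpe _ _ _ _ hk).symm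
    · rw [P'o u' hadj.ne' hw] at hk
      obtain ⟨i, hi⟩ := he u' (hN' u' (mem_nb.2 ⟨hu', hadj⟩) hw)
      have h1 := hτ1 i k
      rw [hi] at h1
      exact h1 (hpe _ _ _ _ (hM.symm _ _ _ _ hk)).symm
  have A2 : ∀ w ∈ W, ∀ u' ∈ S, G.Adj w u' → ∀ k, ¬ M w u' (P' w k) (P' u' k) := by
    intro w hw u' hu' hadj k hk
    by_cases hv' : u' = v
    · subst hv'
      exact A1 w (mem_nb.1 (hW hw)).1 hadj.symm k (hM.symm _ _ _ _ hk)
    · by_cases hw' : u' ∈ W
      · exact hind w hw u' hw' hadj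
      · rw [P'w w hw, P'o u' hv' hw'] at hk
        obtain ⟨i, hi⟩ := hg w hw u' (mem_nb.2 ⟨hu', hadj⟩) hv'
        have h1 := (hτw w hw).1 i k
        rw [hi] at h1
        exact h1 (hpe _ _ _ _ (hM.symm _ _ _ _ hk)).symm
  refine ⟨P', fun u hu u' hu' hadj k hk => ?_⟩
  by_cases h1 : u = v
  · subst h1
    exact A1 u' hu' hadj k hk
  by_cases h2 : u' = v
  · subst h2
    exact A1 u hu hadj.symm k (hM.symm _ _ _ _ hk)
  by_cases h3 : u ∈ W
  · exact A2 u h3 u' hu' hadj k hk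
  by_cases h4 : u' ∈ W
  · exact A2 u' h4 u hu hadj.symm k (hM.symm _ _ _ _ hk)
  rw [P'o u h1 h3, P'o u' h2 h4] at hk
  exact hP u hu h1 h3 u' hu' h2 h4 hadj k hk

/-- admissible moves at a vertex -/
def mv (G : SimpleGraph V) (M : V → V → Fin 6 → Fin 6 → Prop) (S : Finset V) (P : V → P6)
    (u : V) (i j : Fin 6) : Prop := ∀ x ∈ nb G S u, ¬ M x u (P x i) (P u j)

theorem mv_Dg (hM : Cov M) {S : Finset V} {P : V → P6} (hP : Good G M S P) {u : V} (hu : u ∈ S)
    (hd : (nb G S u).card ≤ 4) : Dg (mv G M S P u) := by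
  classical
  have hrefl : ∀ i, mv G M S P u i i := by
    intro i x hx hk
    obtain ⟨hx1, hx2⟩ := mem_nb.1 hx
    exact hP x hx1 u hu hx2.symm i hk
  have key : ∀ (f : V → Fin 6 → Prop), (∀ x j j', f x j → f x j' → j = j') →
      ∀ i, (∀ x ∈ nb G S u, ¬ f x i) → ∃ j, j ≠ i ∧ ∀ x ∈ nb G S u, ¬ f x j := by
    intro f hf i hi
    by_contra hcon
    push Not at hcon
    have h1 : (univ.erase i : Finset (Fin 6)) ⊆
        (nb G S u).biUnion fun x => univ.filter fun j => f x j := by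
      intro j hj
      obtain ⟨x, hx, hfx⟩ := hcon j (mem_erase.1 hj).1
      exact mem_biUnion.2 ⟨x, hx, mem_filter.2 ⟨mem_univ _, hfx⟩⟩
    have h2 := card_le_card h1
    have h3 := card_biUnion_le_card_mul (nb G S u) (fun x => univ.filter fun j => f x j) 1 (by
      intro x _
      rw [card_le_one]
      intro j hj j' hj'
      exact hf x j j' (mem_filter.1 hj).2 (mem_filter.1 hj').2)
    rw [card_erase_of_mem (mem_univ _), card_univ, Fintype.card_fin] at h2
    omega
  refine ⟨hrefl, fun i => ?_, fun j => ?_⟩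
  · exact key (fun x j => M x u (P x i) (P u j)) (fun x j j' h1 h2 =>
      (P u).injective (hM.func _ _ _ _ _ h1 h2)) i (hrefl i)
  · exact key (fun x i => M x u (P x i) (P u j)) (fun x i i' h1 h2 =>
      (P x).injective (hM.func _ _ _ _ _ (hM.symm _ _ _ _ h1) (hM.symm _ _ _ _ h2))) j (hrefl j)

theorem mv_Good [DecidableEq V] (hM : Cov M) {S : Finset V} {P : V → P6} (hP : Good G M S P)
    {u : V} {π : P6} (hπ : ∀ i, mv G M S P u i (π i)) :
    Good G M S (Function.update P u (P u * π)) := by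
  intro x hx y hy hadj k hk
  by_cases h1 : x = u
  · subst h1
    have hyx : y ≠ x := hadj.ne'
    rw [Function.update_self, Function.update_of_ne hyx, Equiv.Perm.mul_apply] at hk
    exact hπ k y (mem_nb.2 ⟨hy, hadj⟩) (hM.symm _ _ _ _ hk)
  · by_cases h2 : y = u
    · subst h2
      rw [Function.update_self, Function.update_of_ne h1, Equiv.Perm.mul_apply] at hk
      exact hπ k x (mem_nb.2 ⟨hx, hadj.symm⟩) hk
    · rw [Function.update_of_ne h1, Function.update_of_ne h2] at hk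
      exact hP x hx y hy hadj k hk

end

end H65.CP
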