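import Pool.Agent.H65.CP.Dig

/-!
# The key lemma: avoiding two of four cells
-/

namespace H65.CP

open Finset

theorem key_swap {E : Fin 6 → Fin 6 → Prop} (hr : ∀ i, E i i) {a b : Fin 6} (h1 : E a b)
    (h2 : E b a) (i : Fin 6) : E i (Equiv.swap a b i) := by
  by_cases ha : i = a
  · rw [ha, Equiv.swap_apply_left]; exact h1
  · by_cases hb : i = b
    · rw [hb, Equiv.swap_apply_right]; exact h2
    · rw [Equiv.swap_apply_of_ne_of_ne ha hb]; exact hr i

theorem key_cyc3 {E : Fin 6 → Fin 6 → Prop} (hr : ∀ i, E i i) {a b c : Fin 6} (hab : a ≠ b)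
    (hac : a ≠ c) (hbc : b ≠ c) (h1 : E a b) (h2 : E b c) (h3 : E c a) :
    ∃ π : Equiv.Perm (Fin 6), (∀ i, E i (π i)) ∧ π a = b ∧ π b = c ∧ π c = a ∧
      ∀ i, i ≠ a → i ≠ b → i ≠ c → π i = i := by
  have e1 : (Equiv.swap a c * Equiv.swap a b) a = b := by
    rw [Equiv.Perm.mul_apply, Equiv.swap_apply_left, Equiv.swap_apply_of_ne_of_ne hab.symm hbc]
  have e2 : (Equiv.swap a c * Equiv.swap a b) b = c := by
    rw [Equiv.Perm.mul_apply, Equiv.swap_apply_right, Equiv.swap_apply_left]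
  have e3 : (Equiv.swap a c * Equiv.swap a b) c = a := by
    rw [Equiv.Perm.mul_apply, Equiv.swap_apply_of_ne_of_ne hac.symm hbc.symm,
      Equiv.swap_apply_right]
  have e4 : ∀ i, i ≠ a → i ≠ b → i ≠ c → (Equiv.swap a c * Equiv.swap a b) i = i := by
    intro i h4 h5 h6
    rw [Equiv.Perm.mul_apply, Equiv.swap_apply_of_ne_of_ne h4 h5,
      Equiv.swap_apply_of_ne_of_ne h4 h6]
  refine ⟨_, fun i => ?_, e1, e2, e3, e4⟩
  by_cases ha : i = a
  · rw [ha, e1]; exact h1
  · by_cases hb : i = b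
    · rw [hb, e2]; exact h2
    · by_cases hc : i = c
      · rw [hc, e3]; exact h3
      · rw [e4 i ha hb hc]; exact hr i

theorem key_cyc4 {E : Fin 6 → Fin 6 → Prop} (hr : ∀ i, E i i) {a b c d : Fin 6} (hab : a ≠ b)
    (hac : a ≠ c) (had : a ≠ d) (hbc : b ≠ c) (hbd : b ≠ d) (hcd : c ≠ d) (h1 : E a b)
    (h2 : E b c) (h3 : E c d) (h4 : E d a) :
    ∃ π : Equiv.Perm (Fin 6), (∀ i, E i (π i)) ∧ π a = b ∧ π c = d := by
  have e1 : (Equiv.swap a d * (Equiv.swap a c * Equiv.swap a b)) a = b := by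
    rw [Equiv.Perm.mul_apply, Equiv.Perm.mul_apply, Equiv.swap_apply_left,
      Equiv.swap_apply_of_ne_of_ne hab.symm hbc, Equiv.swap_apply_of_ne_of_ne hab.symm hbd]
  have e2 : (Equiv.swap a d * (Equiv.swap a c * Equiv.swap a b)) b = c := by
    rw [Equiv.Perm.mul_apply, Equiv.Perm.mul_apply, Equiv.swap_apply_right, Equiv.swap_apply_left,
      Equiv.swap_apply_of_ne_of_ne hac.symm hcd]
  have e3 : (Equiv.swap a d * (Equiv.swap a c * Equiv.swap a b)) c = d := by
    rw [Equiv.Perm.mul_apply, Equiv.Perm.mul_apply, Equiv.swap_apply_of_ne_of_ne hac.symm hbc.symm,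
      Equiv.swap_apply_right, Equiv.swap_apply_left]
  have e5 : (Equiv.swap a d * (Equiv.swap a c * Equiv.swap a b)) d = a := by
    rw [Equiv.Perm.mul_apply, Equiv.Perm.mul_apply, Equiv.swap_apply_of_ne_of_ne had.symm hbd.symm,
      Equiv.swap_apply_of_ne_of_ne had.symm hcd.symm, Equiv.swap_apply_right]
  have e4 : ∀ i, i ≠ a → i ≠ b → i ≠ c → i ≠ d →
      (Equiv.swap a d * (Equiv.swap a c * Equiv.swap a b)) i = i := by
    intro i h5 h6 h7 h8
    rw [Equiv.Perm.mul_apply, Equiv.Perm.mul_apply, Equiv.swap_apply_of_ne_of_ne h5 h6,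
      Equiv.swap_apply_of_ne_of_ne h5 h7, Equiv.swap_apply_of_ne_of_ne h5 h8]
  refine ⟨_, fun i => ?_, e1, e3⟩
  by_cases ha : i = a
  · rw [ha, e1]; exact h1
  · by_cases hb : i = b
    · rw [hb, e2]; exact h2
    · by_cases hc : i = c
      · rw [hc, e3]; exact h3
      · by_cases hd : i = d
        · rw [hd, e5]; exact h4
        · rw [e4 i ha hb hc hd]; exact hr i

/-- Two distinct elements. -/
theorem key_two {s : Finset (Fin 6)} (h : 2 ≤ s.card) : ∃ x ∈ s, ∃ y ∈ s, x ≠ y := by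
  obtain ⟨x, hx, y, hy, hxy⟩ := Finset.one_lt_card.1 h
  exact ⟨x, hx, y, hy, hxy⟩

section

variable {E : Fin 6 → Fin 6 → Prop}

open Classical in
/-- Rows with at most one neighbour off the diagonal. -/
noncomputable def rdef (E : Fin 6 → Fin 6 → Prop) : Finset (Fin 6) :=
  univ.filter fun i => (univ.filter fun j => j ≠ i ∧ E i j).card ≤ 1

theorem rdef_of {i z : Fin 6} (h : ∀ j, j ≠ i → E i j → j = z) : i ∈ rdef E := by
  classical
  refine mem_filter.2 ⟨mem_univ _, ?_⟩
  rw [card_le_one]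
  intro a ha b hb
  rw [mem_filter] at ha hb
  rw [h a ha.2.1 ha.2.2, h b hb.2.1 hb.2.2]

theorem rdef_two {i z w : Fin 6} (hi : i ∉ rdef E) (h : ∀ j, j ≠ i → E i j → j = z ∨ j = w) :
    E i z ∧ E i w := by
  classical
  have h1 : ¬ (univ.filter fun j => j ≠ i ∧ E i j).card ≤ 1 := by
    intro h2
    exact hi (mem_filter.2 ⟨mem_univ _, h2⟩)
  rw [not_le] at h1
  obtain ⟨a, ha, b, hb, hab⟩ := Finset.one_lt_card.1 h1
  rw [mem_filter] at ha hb
  rcases h a ha.2.1 ha.2.2 with e1 | e1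
  · rcases h b hb.2.1 hb.2.2 with e2 | e2
    · exact absurd (e1.trans e2.symm) hab
    · exact ⟨e1 ▸ ha.2.2, e2 ▸ hb.2.2⟩
  · rcases h b hb.2.1 hb.2.2 with e2 | e2
    · exact ⟨e2 ▸ hb.2.2, e1 ▸ ha.2.2⟩
    · exact absurd (e1.trans e2.symm) hab

theorem key_four (h : Dg E) (hrow : (rdef E).card ≤ 2) (hcol : (rdef fun i j => E j i).card ≤ 2)
    {Q : Finset (Fin 6)} (hQ : Q.card = 4)
    (hmv : ∀ π : Equiv.Perm (Fin 6), (∀ i, E i (π i)) → ∀ x ∈ Q, ∀ x' ∈ Q, x ≠ x' → π x ≠ x →
      π x' ≠ x' → False) : False := by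
  classical
  rcases dig_dich h with hsc | ⟨π₁, π₂, h1, h2, h3, h4, h5⟩
  · have g1 : ∀ x ∈ Q, ∀ y ∈ Q, x ≠ y → ¬ E x y := by
      intro x hx y hy hxy hE
      obtain ⟨π, h1, h2⟩ := hsc x y hE
      refine hmv π h1 x hx y hy hxy (by rw [h2]; exact hxy.symm) fun h3 => ?_
      exact hxy (π.injective (h2.trans h3.symm))
    obtain ⟨y1, y2, hy12, hY⟩ : ∃ y1 y2, y1 ≠ y2 ∧ Qᶜ = {y1, y2} :=
      card_eq_two.1 (by rw [card_compl, hQ, Fintype.card_fin])
    have hnQ : ∀ z, z ∉ Q → z = y1 ∨ z = y2 := by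
      intro z hz
      have h1 : z ∈ Qᶜ := mem_compl.2 hz
      rw [hY, mem_insert, mem_singleton] at h1
      exact h1
    have hy1 : y1 ∉ Q := mem_compl.1 (by rw [hY]; exact mem_insert_self _ _)
    have hy2 : y2 ∉ Q := mem_compl.1 (by rw [hY]; exact mem_insert_of_mem (mem_singleton_self _))
    have hout : ∀ x ∈ Q, ∀ j, j ≠ x → E x j → j = y1 ∨ j = y2 := fun x hx j hj hE =>
      hnQ j fun hjQ => g1 x hx j hjQ hj.symm hE
    have hin : ∀ x ∈ Q, ∀ j, j ≠ x → E j x → j = y1 ∨ j = y2 := fun x hx j hj hE =>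
      hnQ j fun hjQ => g1 j hjQ x hx hj hE
    have hQo : 2 ≤ (Q \ rdef E).card := by
      have := le_card_sdiff (rdef E) Q
      omega
    have hQi : 2 ≤ (Q \ rdef fun i j => E j i).card := by
      have := le_card_sdiff (rdef fun i j => E j i) Q
      omega
    obtain ⟨x', hx'⟩ : (Q \ rdef fun i j => E j i).Nonempty := by
      rw [← card_pos]; omega
    obtain ⟨x, hx, hxx'⟩ : ∃ x ∈ Q \ rdef E, x ≠ x' := by
      obtain ⟨u, hu, v, hv, huv⟩ := key_two hQo
      by_cases hux : u = x'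
      · exact ⟨v, hv, fun hvx => huv (hux.trans hvx.symm)⟩
      · exact ⟨u, hu, hux⟩
    obtain ⟨hxQ, hxd⟩ := mem_sdiff.1 hx
    obtain ⟨hxQ', hxd'⟩ := mem_sdiff.1 hx'
    obtain ⟨o1, o2⟩ := rdef_two hxd (hout x hxQ)
    obtain ⟨i1, i2⟩ := rdef_two (E := fun i j => E j i) hxd' (hin x' hxQ')
    obtain ⟨yj, hyj, hEj⟩ := h.out x'
    obtain ⟨yk, hyk, hEk⟩ := h.inn x
    have hyjY := hout x' hxQ' yj hyj hEj
    have hykY := hin x hxQ yk hyk hEk
    have hoall : ∀ z, z = y1 ∨ z = y2 → E x z := fun z hz => by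
      rcases hz with rfl | rfl <;> assumption
    have hiall : ∀ z, z = y1 ∨ z = y2 → E z x' := fun z hz => by
      rcases hz with rfl | rfl <;> assumption
    have hnY : ∀ z, z = y1 ∨ z = y2 → z ∉ Q := fun z hz => by
      rcases hz with rfl | rfl <;> assumption
    have nxy : ∀ w ∈ Q, ∀ z, z = y1 ∨ z = y2 → w ≠ z := fun w hw z hz e =>
      hnY z hz (e ▸ hw)
    by_cases hjk : yj = yk
    · obtain ⟨ya, hya, haj⟩ : ∃ ya, (ya = y1 ∨ ya = y2) ∧ ya ≠ yj := by
        rcases hyjY with e | e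
        · exact ⟨y2, Or.inr rfl, by rw [e]; exact hy12.symm⟩
        · exact ⟨y1, Or.inl rfl, by rw [e]; exact hy12⟩
      obtain ⟨π, h1, h2, h3⟩ := key_cyc4 h.refl (a := x) (b := ya) (c := x') (d := yj)
        (nxy x hxQ ya hya) hxx' (nxy x hxQ yj hyjY) (nxy x' hxQ' ya hya).symm haj
        (nxy x' hxQ' yj hyjY) (hoall ya hya) (hiall ya hya) hEj (by rw [hjk]; exact hEk)
      refine hmv π h1 x hxQ x' hxQ' hxx' ?_ ?_
      · rw [h2]; exact (nxy x hxQ ya hya).symm
      · rw [h3]; exact (nxy x' hxQ' yj hyjY).symm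
    · have hd : Disjoint (Equiv.swap x yk).support (Equiv.swap x' yj).support := by
        rw [Equiv.Perm.support_swap (nxy x hxQ yk hykY),
          Equiv.Perm.support_swap (nxy x' hxQ' yj hyjY), disjoint_left]
        intro z hz hz'
        rw [mem_insert, mem_singleton] at hz hz'
        rcases hz with rfl | rfl
        · rcases hz' with e | e
          · exact hxx' e
          · exact nxy z hxQ yj hyjY e
        · rcases hz' with e | e
          · exact nxy x' hxQ' z hykY e.symm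
          · exact hjk e.symm
      have h1 := dig_mul (key_swap h.refl (hoall yk hykY) hEk)
        (key_swap h.refl hEj (hiall yj hyjY)) hd
      refine hmv _ h1 x hxQ x' hxQ' hxx' ?_ ?_
      · refine dig_mul_ne hd (Or.inl ?_)
        rw [Equiv.swap_apply_left]
        exact (nxy x hxQ yk hykY).symm
      · refine dig_mul_ne hd (Or.inr ?_)
        rw [Equiv.swap_apply_left]
        exact (nxy x' hxQ' yj hyjY).symm
  · have h6 : 2 ≤ (Q ∩ (π₁.support ∪ π₂.support)).card := by
      have h7 := card_union_add_card_inter Q (π₁.support ∪ π₂.support)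
      have h8 := card_le_univ (Q ∪ (π₁.support ∪ π₂.support))
      rw [Fintype.card_fin] at h8
      rw [card_union_of_disjoint h3] at h7
      omega
    obtain ⟨x, hx, x', hx', hxx'⟩ := key_two h6
    rw [mem_inter] at hx hx'
    exact hmv _ (dig_mul h1 h2 h3) x hx.1 x' hx'.1 hxx'
      (dig_mul_ne h3 ((mem_union.1 hx.2).imp Equiv.Perm.mem_support.1 Equiv.Perm.mem_support.1))
      (dig_mul_ne h3 ((mem_union.1 hx'.2).imp Equiv.Perm.mem_support.1 Equiv.Perm.mem_support.1))

theorem key_three (h : Dg E) (hrow : (rdef E).card ≤ 2) (hcol : (rdef fun i j => E j i).card ≤ 2)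
    {X : Finset (Fin 6)} (hX : X.card = 3) {r y : Fin 6} (hrX : r ∉ X) (hyX : y ∉ X) (hry : r ≠ y)
    (f1 : ∀ π : Equiv.Perm (Fin 6), (∀ i, E i (π i)) → ∀ x ∈ X, ∀ x' ∈ X, x ≠ x' → π x ≠ x →
      π x' ≠ x' → False)
    (f2 : ∀ π : Equiv.Perm (Fin 6), (∀ i, E i (π i)) → ∀ x ∈ X, π x ≠ x → π r = y) : False := by
  classical
  have hne : ∀ x ∈ X, ∀ z, z ∉ X → x ≠ z := fun x hx z hz e => hz (e ▸ hx)
  rcases dig_dich h with hsc | ⟨π₁, π₂, h1, h2, h3, h4, h5⟩
  · have g1 : ∀ x ∈ X, ∀ z ∈ X, x ≠ z → ¬ E x z := by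
      intro x hx z hz hxz hE
      obtain ⟨π, h1, h2⟩ := hsc x z hE
      refine f1 π h1 x hx z hz hxz (by rw [h2]; exact hxz.symm) fun h3 => ?_
      exact hxz (π.injective (h2.trans h3.symm))
    have g2 : ∀ x ∈ X, ¬ E x y := by
      intro x hx hE
      obtain ⟨π, h1, h2⟩ := hsc x y hE
      have h3 := f2 π h1 x hx (by rw [h2]; exact (hne x hx y hyX).symm)
      exact hne x hx r hrX (π.injective (h2.trans h3.symm))
    have g3 : ∀ x ∈ X, ¬ E r x := by
      intro x hx hE
      obtain ⟨π, h1, h2⟩ := hsc r x hE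
      have h3 := f2 π h1 x hx (fun h4 => hne x hx r hrX (π.injective (h4.trans h2.symm)))
      exact hne x hx y hyX (h2.symm.trans h3)
    obtain ⟨s, hsX, hsr, hsy, hall⟩ : ∃ s, s ∉ X ∧ s ≠ r ∧ s ≠ y ∧
        ∀ z, z ∉ X → z = r ∨ z = y ∨ z = s := by
      have h1 : (Xᶜ).card = 3 := by rw [card_compl, hX, Fintype.card_fin]
      have h2 : ((Xᶜ.erase r).erase y).card = 1 := by
        rw [card_erase_of_mem (mem_erase.2 ⟨hry.symm, mem_compl.2 hyX⟩),
          card_erase_of_mem (mem_compl.2 hrX), h1]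
      obtain ⟨s, hs⟩ := card_eq_one.1 h2
      have h3 : s ∈ (Xᶜ.erase r).erase y := by rw [hs]; exact mem_singleton_self _
      obtain ⟨h4, h5⟩ := mem_erase.1 h3
      obtain ⟨h6, h7⟩ := mem_erase.1 h5
      refine ⟨s, mem_compl.1 h7, h6, h4, fun z hz => ?_⟩
      by_contra hc
      push Not at hc
      have h8 : z ∈ (Xᶜ.erase r).erase y :=
        mem_erase.2 ⟨hc.2.1, mem_erase.2 ⟨hc.1, mem_compl.2 hz⟩⟩
      rw [hs, mem_singleton] at h8
      exact hc.2.2 h8
    have gout : ∀ x ∈ X, ∀ z, z ≠ x → E x z → z = r ∨ z = s := by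
      intro x hx z hz hE
      rcases hall z (fun hzX => g1 x hx z hzX hz.symm hE) with e | e | e
      · exact Or.inl e
      · exact absurd (e ▸ hE) (g2 x hx)
      · exact Or.inr e
    have gin : ∀ x ∈ X, ∀ z, z ≠ x → E z x → z = y ∨ z = s := by
      intro x hx z hz hE
      rcases hall z (fun hzX => g1 z hzX x hx hz hE) with e | e | e
      · exact absurd (e ▸ hE) (g3 x hx)
      · exact Or.inl e
      · exact Or.inr e
    have g5 : ∀ x ∈ X, E x s → E s x → False := by
      intro x hx h1 h2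
      have h3 := f2 _ (key_swap h.refl h1 h2) x hx (by
        rw [Equiv.swap_apply_left]; exact (hne x hx s hsX).symm)
      rw [Equiv.swap_apply_of_ne_of_ne (hne x hx r hrX).symm hsr.symm] at h3
      exact hry h3
    have pick : ∀ D : Finset (Fin 6), D.card ≤ 2 → ∃ x ∈ X, x ∉ D := by
      intro D hD
      by_contra hc
      push Not at hc
      have := card_le_card (show X ⊆ D from hc)
      omega
    obtain ⟨x, hx, hxd⟩ := pick _ hrow
    obtain ⟨x', hx', hxd'⟩ := pick _ hcol
    obtain ⟨a1, a2⟩ := rdef_two hxd (gout x hx)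
    obtain ⟨b1, b2⟩ := rdef_two (E := fun i j => E j i) hxd' (gin x' hx')
    -- in-neighbour of x
    have a3 : E y x := by
      obtain ⟨z, hz, hE⟩ := h.inn x
      rcases gin x hx z hz hE with e | e
      · exact e ▸ hE
      · exact (g5 x hx a2 (e ▸ hE)).elim
    have b3 : E x' r := by
      obtain ⟨z, hz, hE⟩ := h.out x'
      rcases gout x' hx' z hz hE with e | e
      · exact e ▸ hE
      · exact (g5 x' hx' (e ▸ hE) b2).elim
    have xcd : x ∈ rdef fun i j => E j i := by
      refine rdef_of (z := y) fun z hz hE => ?_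
      rcases gin x hx z hz hE with e | e
      · exact e
      · exact (g5 x hx a2 (e ▸ hE)).elim
    have xrd : x' ∈ rdef E := by
      refine rdef_of (z := r) fun z hz hE => ?_
      rcases gout x' hx' z hz hE with e | e
      · exact e
      · exact (g5 x' hx' (e ▸ hE) b2).elim
    have g6 : ¬ E r s := by
      intro hE
      obtain ⟨π, h1, h2, h3, h4, -⟩ := key_cyc3 h.refl (a := x') (b := r) (c := s)
        (hne x' hx' r hrX) (hne x' hx' s hsX) hsr.symm b3 hE b2
      have h5 := f2 π h1 x' hx' (by rw [h2]; exact (hne x' hx' r hrX).symm)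
      exact hsy (h3.symm.trans h5)
    have g7 : ¬ E s y := by
      intro hE
      obtain ⟨π, h1, h2, h3, h4, h5⟩ := key_cyc3 h.refl (a := y) (b := x) (c := s)
        (hne x hx y hyX).symm hsy.symm (hne x hx s hsX) a3 a2 hE
      have h6 := f2 π h1 x hx (by rw [h3]; exact (hne x hx s hsX).symm)
      rw [h5 r hry (hne x hx r hrX).symm hsr.symm] at h6
      exact hry h6
    have rrd : r ∈ rdef E := by
      refine rdef_of (z := y) fun z hz hE => ?_
      rcases hall z (fun hzX => g3 z hzX hE) with e | e | e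
      · exact absurd e hz
      · exact e
      · exact absurd (e ▸ hE) g6
    have ycd : y ∈ rdef fun i j => E j i := by
      refine rdef_of (z := r) fun z hz hE => ?_
      rcases hall z (fun hzX => g2 z hzX hE) with e | e | e
      · exact e
      · exact absurd e hz
      · exact absurd (e ▸ hE) g7
    have hxx' : x ≠ x' := by
      intro e
      exact g5 x hx a2 (e ▸ b2)
    obtain ⟨w, hw, hwx⟩ := pick {x, x'} (by rw [card_pair hxx'])
    rw [mem_insert, mem_singleton, not_or] at hwx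
    have Dr : rdef E = {x', r} := by
      refine (eq_of_subset_of_card_le ?_ ?_).symm
      · intro z hz
        rcases mem_insert.1 hz with rfl | hz
        · exact xrd
        · rw [mem_singleton.1 hz]; exact rrd
      · rw [card_pair (hne x' hx' r hrX)]; exact hrow
    have Dc : (rdef fun i j => E j i) = {x, y} := by
      refine (eq_of_subset_of_card_le ?_ ?_).symm
      · intro z hz
        rcases mem_insert.1 hz with rfl | hz
        · exact xcd
        · rw [mem_singleton.1 hz]; exact ycd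
      · rw [card_pair (hne x hx y hyX)]; exact hcol
    have c1 := rdef_two (i := w) (z := r) (w := s) (by
      rw [Dr, mem_insert, mem_singleton, not_or]
      exact ⟨hwx.2, hne w hw r hrX⟩) (gout w hw)
    have c2 := rdef_two (E := fun i j => E j i) (i := w) (z := y) (w := s) (by
      rw [Dc, mem_insert, mem_singleton, not_or]
      exact ⟨hwx.1, hne w hw y hyX⟩) (gin w hw)
    exact g5 w hw c1.2 c2.2
  · let U := π₁.support ∪ π₂.support
    have hU : U.card = π₁.support.card + π₂.support.card := card_union_of_disjoint h3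
    have hmv : ∀ x ∈ U, (π₁ * π₂) x ≠ x := fun x hx =>
      dig_mul_ne h3 ((mem_union.1 hx).imp Equiv.Perm.mem_support.1 Equiv.Perm.mem_support.1)
    have h6 : (X ∩ U).card ≤ 1 := by
      by_contra hc
      obtain ⟨x, hx, x', hx', hxx'⟩ := key_two (s := X ∩ U) (by omega)
      rw [mem_inter] at hx hx'
      exact f1 _ (dig_mul h1 h2 h3) x hx.1 x' hx'.1 hxx' (hmv x hx.2) (hmv x' hx'.2)
    have h7 := card_union_add_card_inter X U
    have h8 := card_le_univ (X ∪ U)
    rw [Fintype.card_fin] at h8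
    have h9 : (X ∩ U).card = 1 := by omega
    have h10 : π₁.support.card = 2 := by omega
    have h11 : π₂.support.card = 2 := by omega
    obtain ⟨x, hx⟩ := card_eq_one.1 h9
    have hx' : x ∈ X ∩ U := by rw [hx]; exact mem_singleton_self _
    rw [mem_inter] at hx'
    have part : ∀ π : Equiv.Perm (Fin 6), (∀ i, E i (π i)) → π.support.card = 2 →
        x ∈ π.support → False := by
      intro π hπ hc hxs
      have e1 := f2 π hπ x hx'.1 (Equiv.Perm.mem_support.1 hxs)
      have e2 : r ∈ π.support := Equiv.Perm.mem_support.2 (by rw [e1]; exact hry.symm)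
      have e3 : y ∈ π.support := by
        rw [← e1]; exact Equiv.Perm.apply_mem_support.2 e2
      have e4 : ({x, r, y} : Finset (Fin 6)) ⊆ π.support := by
        intro z hz
        rw [mem_insert, mem_insert, mem_singleton] at hz
        rcases hz with rfl | rfl | rfl <;> assumption
      have e5 := card_le_card e4
      rw [card_eq_three.2 ⟨x, r, y, hne x hx'.1 r hrX, hne x hx'.1 y hyX, hry, rfl⟩, hc] at e5
      omega
    rcases mem_union.1 hx'.2 with e | e
    · exact part π₁ h1 h10 e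
    · exact part π₂ h2 h11 e

end

end H65.CP
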