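import Pool.Agent.H65.CP.Key

/-!
# The key lemma for bipartite graphs
-/

namespace H65.CP

open Finset

open Classical in
/-- Row degree. -/
noncomputable def rdeg (A : Fin 6 → Fin 6 → Prop) (i : Fin 6) : ℕ :=
  (univ.filter fun j => A i j).card

theorem rdeg_block {A : Fin 6 → Fin 6 → Prop} {i : Fin 6} {C : Finset (Fin 6)}
    (h : ∀ c ∈ C, ¬ A i c) : rdeg A i + C.card ≤ 6 := by
  classical
  unfold rdeg
  have h1 : Disjoint (univ.filter fun j => A i j) C := by
    rw [disjoint_left]
    intro j hj hjC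
    exact h j hjC (mem_filter.1 hj).2
  have h2 := card_le_univ ((univ.filter fun j => A i j) ∪ C)
  rw [card_union_of_disjoint h1, Fintype.card_fin] at h2
  exact h2

theorem hall_deg {A : Fin 6 → Fin 6 → Prop} (hr : ∀ i, 2 ≤ rdeg A i)
    (hc : ∀ j, 2 ≤ rdeg (fun j i => A i j) j)
    (hrow : (univ.filter fun i => rdeg A i ≤ 2).card ≤ 2)
    (hcol : (univ.filter fun j => rdeg (fun j i => A i j) j ≤ 2).card ≤ 2) :
    ∃ τ : Equiv.Perm (Fin 6), ∀ i, A i (τ i) := by
  rcases hall_block A with h | ⟨R, C, hRC, h⟩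
  · exact h
  · exfalso
    have hR6 : R.card ≤ 6 := by
      have := card_le_univ R
      rwa [Fintype.card_fin] at this
    have hC6 : C.card ≤ 6 := by
      have := card_le_univ C
      rwa [Fintype.card_fin] at this
    have h1 : ∀ r ∈ R, rdeg A r + C.card ≤ 6 := fun r hr' => rdeg_block fun c hc' => h r hr' c hc'
    have h2 : ∀ c ∈ C, rdeg (fun j i => A i j) c + R.card ≤ 6 := fun c hc' =>
      rdeg_block (A := fun j i => A i j) fun r hr' => h r hr' c hc'
    obtain ⟨r, hrR⟩ : R.Nonempty := by rw [← card_pos]; omega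
    obtain ⟨c, hcC⟩ : C.Nonempty := by rw [← card_pos]; omega
    have h3 := h1 r hrR
    have h4 := h2 c hcC
    have h5 := hr r
    have h6 := hc c
    by_cases hC : C.card = 4
    · have h7 : R ⊆ univ.filter fun i => rdeg A i ≤ 2 := by
        intro x hx
        have := h1 x hx
        exact mem_filter.2 ⟨mem_univ _, by omega⟩
      have := card_le_card h7
      omega
    · have h7 : C ⊆ univ.filter fun j => rdeg (fun j i => A i j) j ≤ 2 := by
        intro x hx
        have := h2 x hx
        exact mem_filter.2 ⟨mem_univ _, by omega⟩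
      have := card_le_card h7
      omega

theorem key_A {A : Fin 6 → Fin 6 → Prop} (hr : ∀ i, 2 ≤ rdeg A i)
    (hc : ∀ j, 2 ≤ rdeg (fun j i => A i j) j)
    (hrow : (univ.filter fun i => rdeg A i ≤ 2).card ≤ 2)
    (hcol : (univ.filter fun j => rdeg (fun j i => A i j) j ≤ 2).card ≤ 2)
    {Q : Finset (Fin 6)} (hQ : Q.card = 4) (m : Equiv.Perm (Fin 6)) :
    ∃ τ : Equiv.Perm (Fin 6), (∀ i, A i (τ i)) ∧ (Q.filter fun q => τ q = m q).card ≤ 2 := by
  classical
  by_contra hcon
  push Not at hcon
  obtain ⟨σ, hσ⟩ := hall_deg hr hc hrow hcol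
  let E : Fin 6 → Fin 6 → Prop := fun i j => A i (σ j)
  have hE : Dg E := by
    refine ⟨hσ, fun i => ?_, fun j => ?_⟩
    · obtain ⟨a, ha, b, hb, hab⟩ := key_two (hr i)
      rw [mem_filter] at ha hb
      by_cases h : a = σ i
      · refine ⟨σ.symm b, fun e => hab ?_, ?_⟩
        · rw [h, ← e, Equiv.apply_symm_apply]
        · show A i (σ (σ.symm b))
          rw [Equiv.apply_symm_apply]; exact hb.2
      · refine ⟨σ.symm a, fun e => h ?_, ?_⟩
        · rw [← e, Equiv.apply_symm_apply]
        · show A i (σ (σ.symm a))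
          rw [Equiv.apply_symm_apply]; exact ha.2
    · obtain ⟨a, ha, b, hb, hab⟩ := key_two (hc (σ j))
      rw [mem_filter] at ha hb
      by_cases h : a = j
      · exact ⟨b, fun e => hab (h.trans e.symm), hb.2⟩
      · exact ⟨a, h, ha.2⟩
  have hEr : (rdef E).card ≤ 2 := by
    refine (card_le_card fun i hi => ?_).trans hrow
    refine mem_filter.2 ⟨mem_univ _, ?_⟩
    have h1 : (univ.filter fun j => j ≠ i ∧ E i j).card ≤ 1 := (mem_filter.1 hi).2
    have h2 : (univ.filter fun j => A i j) ⊆
        insert (σ i) ((univ.filter fun j => j ≠ i ∧ E i j).image σ) := by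
      intro j hj
      by_cases hji : j = σ i
      · rw [hji]; exact mem_insert_self _ _
      · refine mem_insert_of_mem (mem_image.2 ⟨σ.symm j, mem_filter.2 ⟨mem_univ _, ?_, ?_⟩, ?_⟩)
        · intro e
          exact hji (by rw [← e, Equiv.apply_symm_apply])
        · show A i (σ (σ.symm j))
          rw [Equiv.apply_symm_apply]; exact (mem_filter.1 hj).2
        · exact Equiv.apply_symm_apply _ _
    unfold rdeg
    have h3 := card_le_card h2
    have h4 := card_insert_le (σ i) ((univ.filter fun j => j ≠ i ∧ E i j).image σ)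
    have h5 := card_image_le (s := univ.filter fun j => j ≠ i ∧ E i j) (f := σ)
    omega
  have hEc : (rdef fun i j => E j i).card ≤ 2 := by
    rw [← card_image_of_injective _ σ.injective]
    refine (card_le_card fun c hc' => ?_).trans hcol
    obtain ⟨j, hj, rfl⟩ := mem_image.1 hc'
    refine mem_filter.2 ⟨mem_univ _, ?_⟩
    have h1 : (univ.filter fun i => i ≠ j ∧ E i j).card ≤ 1 := (mem_filter.1 hj).2
    have h2 : (univ.filter fun i => A i (σ j)) ⊆
        insert j (univ.filter fun i => i ≠ j ∧ E i j) := by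
      intro i hi
      by_cases hij : i = j
      · rw [hij]; exact mem_insert_self _ _
      · exact mem_insert_of_mem (mem_filter.2 ⟨mem_univ _, hij, (mem_filter.1 hi).2⟩)
    have h3 := card_le_card h2
    have h4 := card_insert_le j (univ.filter fun i => i ≠ j ∧ E i j)
    show (univ.filter fun i => A i (σ j)).card ≤ 2
    omega
  have hcount : ∀ π : Equiv.Perm (Fin 6), (∀ i, E i (π i)) →
      2 < (Q.filter fun q => σ (π q) = m q).card := fun π hπ => hcon (σ * π) hπ
  have hsmall : ∀ π : Equiv.Perm (Fin 6), (∀ i, E i (π i)) → ∀ x ∈ Q, ∀ x' ∈ Q, x ≠ x' →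
      σ (π x) ≠ m x → σ (π x') ≠ m x' → False := by
    intro π hπ x hx x' hx' hxx' h1 h2
    have h3 := hcount π hπ
    have h4 : (Q.filter fun q => σ (π q) = m q) ⊆ (Q.erase x).erase x' := by
      intro q hq
      obtain ⟨hq1, hq2⟩ := mem_filter.1 hq
      refine mem_erase.2 ⟨?_, mem_erase.2 ⟨?_, hq1⟩⟩
      · rintro rfl; exact h2 hq2
      · rintro rfl; exact h1 hq2
    have h5 := card_le_card h4
    rw [card_erase_of_mem (mem_erase.2 ⟨hxx'.symm, hx'⟩), card_erase_of_mem hx, hQ] at h5
    omega
  have h0 := hcount 1 (fun i => hσ i)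
  simp only [Equiv.Perm.one_apply] at h0
  have h0' : (Q.filter fun q => σ q = m q).card ≤ 4 := hQ ▸ card_filter_le _ _
  by_cases h4 : (Q.filter fun q => σ q = m q).card = 4
  · have h5 : (Q.filter fun q => σ q = m q) = Q :=
      eq_of_subset_of_card_le (filter_subset _ _) (by omega)
    have h6 : ∀ q ∈ Q, σ q = m q := by
      intro q hq
      rw [← h5] at hq
      exact (mem_filter.1 hq).2
    refine key_four hE hEr hEc hQ fun π hπ x hx x' hx' hxx' h1 h2 => ?_
    refine hsmall π hπ x hx x' hx' hxx' (fun e => h1 ?_) (fun e => h2 ?_)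
    · exact σ.injective (e.trans (h6 x hx).symm)
    · exact σ.injective (e.trans (h6 x' hx').symm)
  · let X := Q.filter fun q => σ q = m q
    have hX : X.card = 3 := by
      show (Q.filter fun q => σ q = m q).card = 3
      omega
    have hXQ : X ⊆ Q := filter_subset _ _
    have hXm : ∀ x ∈ X, σ x = m x := fun x hx => (mem_filter.1 hx).2
    have h5 : (Q \ X).card = 1 := by
      rw [card_sdiff_of_subset hXQ, hQ, hX]
    obtain ⟨r, hr'⟩ := card_eq_one.1 h5
    have h6 : r ∈ Q \ X := by rw [hr']; exact mem_singleton_self _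
    obtain ⟨hrQ, hrX⟩ := mem_sdiff.1 h6
    have hry : r ≠ σ.symm (m r) := by
      intro e
      refine hrX (mem_filter.2 ⟨hrQ, ?_⟩)
      have := congrArg σ e
      rwa [Equiv.apply_symm_apply] at this
    refine key_three hE hEr hEc hX hrX (y := σ.symm (m r)) (fun hy => ?_) hry
      (fun π hπ x hx x' hx' hxx' h1 h2 => ?_) (fun π hπ x hx h1 => ?_)
    · have h7 := hXm _ hy
      rw [Equiv.apply_symm_apply] at h7
      exact hry (m.injective h7)
    · refine hsmall π hπ x (hXQ hx) x' (hXQ hx') hxx' (fun e => h1 ?_) (fun e => h2 ?_)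
      · exact σ.injective (e.trans (hXm x hx).symm)
      · exact σ.injective (e.trans (hXm x' hx').symm)
    · by_contra h7
      refine hsmall π hπ x (hXQ hx) r hrQ (fun e => hrX (e ▸ hx)) (fun e => h1 ?_) (fun e => h7 ?_)
      · exact σ.injective (e.trans (hXm x hx).symm)
      · rw [← e, Equiv.symm_apply_apply]

end H65.CP
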