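import Pool.Agent.H65.CP.Graph

/-!
# Discharging
-/

namespace H65.CP

open Finset

variable {V : Type*} {G : SimpleGraph V} {M : V → V → Fin 6 → Fin 6 → Prop}

theorem five_five (hM : Cov M) {S : Finset V} {v u1 u2 : V} (hv : v ∈ S) (h1 : u1 ∈ nb G S v)
    (h2 : u2 ∈ nb G S v) (hne : u1 ≠ u2) (hdv : (nb G S v).card ≤ 4)
    (hd1 : (nb G S u1).card ≤ 5) (hd2 : (nb G S u2).card ≤ 5)
    (hP : ∃ P : V → P6, ∀ u ∈ S, u ≠ v → ∀ u' ∈ S, u' ≠ v → G.Adj u u' →
      ∀ k, ¬ M u u' (P u k) (P u' k)) : Pack G M S := by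
  classical
  have : Nonempty V := ⟨v⟩
  by_contra hno
  obtain ⟨pe, hpe⟩ := exists_pe hM
  obtain ⟨P0, hP0⟩ := hP
  have hP0' : Good G M (S.erase v) P0 := fun x hx y hy hadj k =>
    hP0 x (mem_of_mem_erase hx) (mem_erase.1 hx).1 y (mem_of_mem_erase hy) (mem_erase.1 hy).1 hadj k
  have hN : (((nb G S v).erase u1).erase u2).card ≤ 2 := by
    rw [card_erase_of_mem (mem_erase.2 ⟨hne.symm, h2⟩), card_erase_of_mem h1]
    omega
  obtain ⟨e, he⟩ := enum 2 hN
  obtain ⟨s3, hs3⟩ : ∃ s3, s3 = pe (e 0) v * P0 (e 0) := ⟨_, rfl⟩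
  obtain ⟨s4, hs4⟩ : ∃ s4, s4 = pe (e 1) v * P0 (e 1) := ⟨_, rfl⟩
  have hs : ∀ x ∈ nb G S v, x ≠ u1 → x ≠ u2 → pe x v * P0 x = s3 ∨ pe x v * P0 x = s4 := by
    intro x hx hx1 hx2
    obtain ⟨i, hi⟩ := he x (mem_erase.2 ⟨hx2, mem_erase.2 ⟨hx1, hx⟩⟩)
    match i with
    | 0 => left; rw [hs3, hi]
    | 1 => right; rw [hs4, hi]
  let adm : (V → P6) → Prop := fun P => Good G M (S.erase v) P ∧
    ∀ x, x ≠ u1 → x ≠ u2 → P x = P0 x
  have hb : ∀ x y : V, (x = u1 ∧ y = u2 ∨ x = u2 ∧ y = u1) → ∀ P, adm P →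
      Blk ![pe y v * P y, s3, s4] (pe x v * P x) := by
    intro x y hxy P hP hcon
    obtain ⟨τ, ht1, ht2⟩ := hcon
    have t0 : ∀ r, τ r ≠ (pe y v * P y) r := ht1 0
    have t1 : ∀ r, τ r ≠ s3 r := ht1 1
    have t2 : ∀ r, τ r ≠ s4 r := ht1 2
    refine hno ⟨Function.update P v τ, ?_⟩
    have hall : ∀ z ∈ nb G S v, ∀ r, τ r ≠ (pe z v * P z) r := by
      intro z hz r
      by_cases hzx : z = x
      · rw [hzx]; exact ht2 r
      · by_cases hzy : z = y
        · rw [hzy]; exact t0 r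
        · have hz1 : z ≠ u1 := by
            rcases hxy with ⟨e1, e2⟩ | ⟨e1, e2⟩
            · rw [← e1]; exact hzx
            · rw [← e2]; exact hzy
          have hz2 : z ≠ u2 := by
            rcases hxy with ⟨e1, e2⟩ | ⟨e1, e2⟩
            · rw [← e2]; exact hzy
            · rw [← e1]; exact hzx
          rw [hP.2 z hz1 hz2]
          rcases hs z hz hz1 hz2 with h | h
          · rw [h]; exact t1 r
          · rw [h]; exact t2 r
    have A1 : ∀ z ∈ S, G.Adj v z → ∀ k, ¬ M z v (P z k) (τ k) := by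
      intro z hz hadj k hk
      exact hall z (mem_nb.2 ⟨hz, hadj⟩) k (hpe _ _ _ _ hk).symm
    intro z hz z' hz' hadj k hk
    by_cases h3 : z = v
    · subst h3
      rw [Function.update_self, Function.update_of_ne hadj.ne'] at hk
      exact A1 z' hz' hadj k (hM.symm _ _ _ _ hk)
    · by_cases h4 : z' = v
      · subst h4
        rw [Function.update_self, Function.update_of_ne hadj.ne] at hk
        exact A1 z hz hadj.symm k hk
      · rw [Function.update_of_ne h3, Function.update_of_ne h4] at hk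
        exact hP.1 z (mem_erase.2 ⟨h3, hz⟩) z' (mem_erase.2 ⟨h4, hz'⟩) hadj k hk
  have hdeg : ∀ u, (u = u1 ∨ u = u2) → u ∈ S.erase v ∧ (nb G (S.erase v) u).card ≤ 4 := by
    intro u hu
    have hu' : u ∈ nb G S v := by rcases hu with rfl | rfl <;> assumption
    have hud : (nb G S u).card ≤ 5 := by rcases hu with rfl | rfl <;> assumption
    obtain ⟨k1, k2⟩ := mem_nb.1 hu'
    refine ⟨mem_erase.2 ⟨k2.ne', k1⟩, ?_⟩
    have k3 : nb G (S.erase v) u ⊆ (nb G S u).erase v := by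
      intro x hx
      obtain ⟨k4, k5⟩ := mem_nb.1 hx
      exact mem_erase.2 ⟨(mem_erase.1 k4).1, mem_nb.2 ⟨mem_of_mem_erase k4, k5⟩⟩
    have k4 := card_le_card k3
    rw [card_erase_of_mem (mem_nb.2 ⟨hv, k2.symm⟩)] at k4
    omega
  have hupd : ∀ x, (x = u1 ∨ x = u2) → ∀ P, adm P → ∀ π : P6,
      (∀ i, mv G M (S.erase v) P x i (π i)) → adm (Function.update P x (P x * π)) := by
    intro x hx P hP π hπ
    refine ⟨mv_Good hM hP.1 hπ, fun z hz1 hz2 => ?_⟩
    have hzx : z ≠ x := by rcases hx with rfl | rfl <;> assumption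
    rw [Function.update_of_ne hzx]
    exact hP.2 z hz1 hz2
  have stepN : ∀ x y : V, (x = u1 ∧ y = u2 ∨ x = u2 ∧ y = u1) → ∀ P, adm P →
      NTT ![pe y v * P y, s3, s4] → False := by
    intro x y hxy P hP hN
    have hx : x = u1 ∨ x = u2 := hxy.imp And.left And.left
    have hyx : y ≠ x := by
      rcases hxy with ⟨e1, e2⟩ | ⟨e1, e2⟩
      · rw [e1, e2]; exact hne.symm
      · rw [e1, e2]; exact hne
    have hE := mv_Dg hM hP.1 (hdeg x hx).1 (hdeg x hx).2
    obtain ⟨π, hπ, hnot⟩ := avoid_N hN (hb x y hxy P hP) hE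
    have h3 := hb x y hxy _ (hupd x hx P hP π hπ)
    rw [Function.update_self, Function.update_of_ne hyx, ← mul_assoc] at h3
    exact hnot h3
  have adm0 : adm P0 := ⟨hP0', fun _ _ _ => rfl⟩
  rcases classify ![pe u2 v * P0 u2, s3, s4] with hN0 | ⟨Q, C, m, hFT, hF⟩
  · exact stepN u1 u2 (Or.inl ⟨rfl, rfl⟩) P0 adm0 hN0
  obtain ⟨P1, adm1, hP12, hP1c⟩ : ∃ P1, adm P1 ∧ P1 u2 = P0 u2 ∧
      (Q.filter fun q => (pe u1 v * P1 u1) q = m q).card = 3 := by
    have h3 := hF _ (hb u1 u2 (Or.inl ⟨rfl, rfl⟩) P0 adm0)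
    by_cases h4 : (Q.filter fun q => (pe u1 v * P0 u1) q = m q).card = 3
    · exact ⟨P0, adm0, rfl, h4⟩
    · have h5 : (Q.filter fun q => (pe u1 v * P0 u1) q = m q) = Q :=
        eq_of_subset_of_card_le (filter_subset _ _) (by rw [hFT.1]; omega)
      have hE := mv_Dg hM hP0' (hdeg u1 (Or.inl rfl)).1 (hdeg u1 (Or.inl rfl)).2
      obtain ⟨π, hπ, q, hq, hπq⟩ := dig_moveQ hE (Q := Q) (by rw [hFT.1])
      have hadm := hupd u1 (Or.inl rfl) P0 adm0 π hπ
      have h6 := hb u1 u2 (Or.inl ⟨rfl, rfl⟩) _ hadm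
      rw [Function.update_of_ne hne.symm] at h6
      have h7 := hF _ h6
      refine ⟨_, hadm, Function.update_of_ne hne.symm _ _, ?_⟩
      refine le_antisymm ?_ h7
      have h8 : (Q.filter fun q => (pe u1 v * (Function.update P0 u1 (P0 u1 * π)) u1) q = m q) ⊆
          Q.erase q := by
        intro z hz
        obtain ⟨k1, k2⟩ := mem_filter.1 hz
        refine mem_erase.2 ⟨?_, k1⟩
        rintro rfl
        rw [← h5] at hq
        have k3 := (mem_filter.1 hq).2
        rw [Function.update_self, ← mul_assoc, Equiv.Perm.mul_apply] at k2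
        exact hπq ((pe u1 v * P0 u1).injective (k2.trans k3.symm))
      have h9 := card_le_card h8
      rw [card_erase_of_mem hq, hFT.1] at h9
      exact h9
  rcases classify ![pe u1 v * P1 u1, s3, s4] with hN1 | ⟨Q', C', m', hFT', hF'⟩
  · exact stepN u2 u1 (Or.inr ⟨rfl, rfl⟩) P1 adm1 hN1
  · exact incompat hFT hFT' hP1c

theorem discharge (hM : Cov M) {S : Finset V} (hno : ¬ Pack G M S)
    (hsub : ∀ T ⊂ S, Pack G M T) : 5 * S.card ≤ ∑ v ∈ S, (nb G S v).card := by
  classical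
  have getP : ∀ v ∈ S, ∀ W : Finset V, ∃ P : V → P6, ∀ u ∈ S, u ≠ v → u ∉ W → ∀ u' ∈ S, u' ≠ v →
      u' ∉ W → G.Adj u u' → ∀ k, ¬ M u u' (P u k) (P u' k) := by
    intro v hv W
    obtain ⟨P, hP⟩ := hsub (S \ insert v W) (by
      refine ⟨sdiff_subset, fun h => ?_⟩
      exact (mem_sdiff.1 (h hv)).2 (mem_insert_self _ _))
    refine ⟨P, fun u hu h1 h2 u' hu' h1' h2' hadj k => hP u ?_ u' ?_ hadj k⟩
    · exact mem_sdiff.2 ⟨hu, fun h => (mem_insert.1 h).elim h1 h2⟩
    · exact mem_sdiff.2 ⟨hu', fun h => (mem_insert.1 h).elim h1' h2'⟩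
  have hd4 : ∀ v ∈ S, 4 ≤ (nb G S v).card := by
    intro v hv
    by_contra hcon
    refine hno (extend hM ext_31 hv (W := ∅) (empty_subset _) (by simp)
      ⟨nb G S v, by omega, fun u hu _ => hu⟩ (by simp) (by simp) (getP v hv ∅))
  have h44 : ∀ v ∈ S, (nb G S v).card = 4 → ∀ w ∈ nb G S v, (nb G S w).card ≠ 4 := by
    intro v hv hdv w hw hdw
    refine hno (extend hM ext_31 hv (W := {w}) (singleton_subset_iff.2 hw) (by simp)
      ⟨(nb G S v).erase w, by rw [card_erase_of_mem hw]; omega, fun u hu hu' =>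
        mem_erase.2 ⟨fun e => hu' (mem_singleton.2 e), hu⟩⟩ ?_ ?_ (getP v hv {w}))
    · intro w' hw'
      rw [mem_singleton.1 hw', hdw]
    · intro w' hw' w'' hw''
      rw [mem_singleton.1 hw', mem_singleton.1 hw'']
      exact G.irrefl
  have hind : ∀ w ∈ S, (nb G S w).card = 4 → ∀ w' ∈ S, (nb G S w').card = 4 → ¬ G.Adj w w' :=
    fun w hw hdw w' hw' hdw' hadj => h44 w hw hdw w' (mem_nb.2 ⟨hw', hadj⟩) hdw'
  have h55 : ∀ v ∈ S, (nb G S v).card = 4 → ∀ u1 ∈ nb G S v, ∀ u2 ∈ nb G S v, u1 ≠ u2 →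
      (nb G S u1).card ≤ 5 → (nb G S u2).card ≤ 5 → False := by
    intro v hv hdv u1 hu1 u2 hu2 hne hd1 hd2
    obtain ⟨P, hP⟩ := getP v hv ∅
    exact hno (five_five hM hv hu1 hu2 hne hdv.le hd1 hd2 ⟨P, fun u hu h1 u' hu' h1' hadj k =>
      hP u hu h1 (notMem_empty _) u' hu' h1' (notMem_empty _) hadj k⟩)
  have h6 : ∀ v ∈ S, (nb G S v).card = 6 →
      ((nb G S v).filter fun w => (nb G S w).card = 4).card ≤ 3 := by
    intro v hv hdv
    by_contra hcon
    obtain ⟨W, hW, hWc⟩ := exists_subset_card_eq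
      (s := (nb G S v).filter fun w => (nb G S w).card = 4) (n := 4) (by omega)
    have hWn : W ⊆ nb G S v := hW.trans (filter_subset _ _)
    have hWd : ∀ w ∈ W, (nb G S w).card = 4 := fun w hw => (mem_filter.1 (hW hw)).2
    have hWS : ∀ w ∈ W, w ∈ S := fun w hw => (mem_nb.1 (hWn hw)).1
    exact hno (extend hM ext_24 hv hWn hWc.le ⟨nb G S v \ W, by
      rw [card_sdiff_of_subset hWn]; omega, fun u hu hu' => mem_sdiff.2 ⟨hu, hu'⟩⟩
      (fun w hw => (hWd w hw).le)
      (fun w hw w' hw' => hind w (hWS w hw) (hWd w hw) w' (hWS w' hw') (hWd w' hw'))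
      (getP v hv W))
  have h7 : ∀ v ∈ S, (nb G S v).card = 7 →
      ((nb G S v).filter fun w => (nb G S w).card = 4).card ≤ 6 := by
    intro v hv hdv
    by_contra hcon
    have hle := card_filter_le (nb G S v) fun w => (nb G S w).card = 4
    have heq : ((nb G S v).filter fun w => (nb G S w).card = 4) = nb G S v :=
      eq_of_subset_of_card_le (filter_subset _ _) (by omega)
    have hWd : ∀ w ∈ nb G S v, (nb G S w).card = 4 := fun w hw => by
      rw [← heq] at hw
      exact (mem_filter.1 hw).2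
    have hWS : ∀ w ∈ nb G S v, w ∈ S := fun w hw => (mem_nb.1 hw).1
    exact hno (extend hM ext_07 hv (W := nb G S v) subset_rfl hdv.le
      ⟨∅, by simp, fun u hu hu' => absurd hu hu'⟩
      (fun w hw => (hWd w hw).le)
      (fun w hw w' hw' => hind w (hWS w hw) (hWd w hw) w' (hWS w' hw') (hWd w' hw'))
      (getP v hv _))
  -- discharging
  let F := S.filter fun v => (nb G S v).card = 4
  let B := S.filter fun v => 6 ≤ (nb G S v).card
  have hFB : ∀ w ∈ F, 3 ≤ (B.filter fun v => G.Adj v w).card := by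
    intro w hw
    obtain ⟨hwS, hwd⟩ := mem_filter.1 hw
    have e1 : ((nb G S w).filter fun u => ¬ 6 ≤ (nb G S u).card).card ≤ 1 := by
      rw [card_le_one]
      intro x hx y hy
      by_contra hxy
      obtain ⟨hx1, hx2⟩ := mem_filter.1 hx
      obtain ⟨hy1, hy2⟩ := mem_filter.1 hy
      exact h55 w hwS hwd x hx1 y hy1 hxy (by omega) (by omega)
    have e2 := card_filter_add_card_filter_not (s := nb G S w) (fun u => 6 ≤ (nb G S u).card)
    have e3 : ((nb G S w).filter fun u => 6 ≤ (nb G S u).card) ⊆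
        B.filter fun v => G.Adj v w := by
      intro x hx
      obtain ⟨hx1, hx2⟩ := mem_filter.1 hx
      obtain ⟨hx3, hx4⟩ := mem_nb.1 hx1
      exact mem_filter.2 ⟨mem_filter.2 ⟨hx3, hx2⟩, hx4.symm⟩
    have e4 := card_le_card e3
    omega
  have hdc : ∑ v ∈ B, (F.filter fun w => G.Adj v w).card =
      ∑ w ∈ F, (B.filter fun v => G.Adj v w).card :=
    sum_card_bipartiteAbove_eq_sum_card_bipartiteBelow G.Adj
  have hcharge : ∀ v ∈ S, 15 + (if v ∈ B then (F.filter fun w => G.Adj v w).card else 0) ≤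
      3 * (nb G S v).card + (if v ∈ F then 3 else 0) := by
    intro v hv
    have k4 := hd4 v hv
    by_cases hvB : v ∈ B
    · rw [if_pos hvB]
      have k5 := (mem_filter.1 hvB).2
      have k6 : (F.filter fun w => G.Adj v w) ⊆
          (nb G S v).filter fun w => (nb G S w).card = 4 := by
        intro w hw
        obtain ⟨e1, e2⟩ := mem_filter.1 hw
        obtain ⟨e3, e4⟩ := mem_filter.1 e1
        exact mem_filter.2 ⟨mem_nb.2 ⟨e3, e2⟩, e4⟩
      have k7 := card_le_card k6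
      have k8 := card_filter_le (nb G S v) fun w => (nb G S w).card = 4
      by_cases c6 : (nb G S v).card = 6
      · have := h6 v hv c6
        omega
      · by_cases c7 : (nb G S v).card = 7
        · have := h7 v hv c7
          omega
        · omega
    · rw [if_neg hvB]
      have k5 : ¬ 6 ≤ (nb G S v).card := fun h => hvB (mem_filter.2 ⟨hv, h⟩)
      by_cases c4 : (nb G S v).card = 4
      · rw [if_pos (show v ∈ F from mem_filter.2 ⟨hv, c4⟩)]
        omega
      · omega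
  have hsum := sum_le_sum hcharge
  rw [sum_add_distrib, sum_add_distrib, sum_const, smul_eq_mul, ← mul_sum] at hsum
  have e1 : ∑ v ∈ S, (if v ∈ B then (F.filter fun w => G.Adj v w).card else 0) =
      ∑ v ∈ B, (F.filter fun w => G.Adj v w).card := by
    rw [← sum_filter]
    congr 1
    ext x
    rw [mem_filter]
    exact ⟨fun h => h.2, fun h => ⟨(mem_filter.1 h).1, h⟩⟩
  have e2 : ∑ v ∈ S, (if v ∈ F then 3 else 0) = 3 * F.card := by
    rw [← sum_filter, sum_const, smul_eq_mul, mul_comm]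
    congr 2
    ext x
    rw [mem_filter]
    exact ⟨fun h => h.2, fun h => ⟨(mem_filter.1 h).1, h⟩⟩
  have e3 : 3 * F.card ≤ ∑ w ∈ F, (B.filter fun v => G.Adj v w).card := by
    have := sum_le_sum hFB
    rw [sum_const, smul_eq_mul] at this
    omega
  omega

/-- Graphs of maximum average degree less than 5. -/
theorem mad_five (hM : Cov M) (S : Finset V)
    (hmad : ∀ T ⊆ S, T.Nonempty → ∑ v ∈ T, (nb G T v).card < 5 * T.card) : Pack G M S := by
  classical
  induction S using Finset.strongInduction with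
  | H S ih =>
    by_contra hno
    have h1 := discharge hM hno fun T hT => ih T hT fun T' hT' => hmad T' (hT'.trans hT.1)
    have h2 : S.Nonempty := by
      rw [nonempty_iff_ne_empty]
      rintro rfl
      exact hno ⟨fun _ => 1, fun u hu => absurd hu (notMem_empty u)⟩
    exact absurd (hmad S subset_rfl h2) (not_lt.2 h1)

end H65.CP
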